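import Pool.Agent.Run7.h146.Met.I2

/-!
# Interface 3: existence of a Poisson process of meteors (the main theorem is not vacuous)
-/

set_option autoImplicit false

open MeasureTheory Filter Topology ENNReal

namespace Run7.h146.Met

open Classical in
/-- NVP (100 lines; `t_NVP : S_PO1 → S_PO2 → S_SUP → S_IND → S_MB → S_MEAS → S_NVP`). Superposition of
independent Poisson processes in disjoint regions.
Proof. Let `B = B₁ ∪ B₂`. By IND (`B₃ = ∅`, `G₃ = 1`, `G₁ = 1_{A₁}`, `G₂ = 1_{A₂}`) the law of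
`F ↦ (res B₁ F, res B₂ F)` under `poi (mB B)` is the product measure (`Measure.prod_eq`). For `F` with
all positions in `B` (almost sure by MB/PO1) `F = res B₁ F ∪ res B₂ F`. The map `(F, G) ↦ F ∪ G` is measurable on the
image sets: it is enough to prove that `(y, y') ↦ univ.image y ∪ univ.image y'` is measurable for each
`(n, n')` (`Fin.append`) when `poi` is written as a sum; alternatively use `lintegral` for the sums of PO1. -/
def S_NVP : Prop := ∀ (d : ℕ) (B₁ B₂ : Set (V d)), 0 < d → MeasurableSet B₁ → MeasurableSet B₂ →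
  volume B₁ ≠ ⊤ → volume B₂ ≠ ⊤ → Disjoint B₁ B₂ → ∀ G : Finset (X d) → ℝ≥0∞, Measurable G →
  (∀ F' : Finset (X d), Measurable fun F => G (F ∪ F')) ∧
  (Measurable fun F => ∫⁻ F', G (F ∪ F') ∂(poi (mB B₂))) ∧
  ∫⁻ F, G F ∂(poi (mB (B₁ ∪ B₂))) = ∫⁻ F, ∫⁻ F', G (F ∪ F') ∂(poi (mB B₂)) ∂(poi (mB B₁))

/-- NV (150 lines; `t_NV : S_PO1 → S_PO2 → S_IND → S_MB → S_MEAS → S_NVP → S_NV`). Existence.
Proof. `Ω = ℕ → Finset (X d)`, annuli `A_n = {x : n ≤ ‖x‖ < n + 1}`, `P = Measure.infinitePi fun n => poi (mB A_n)`,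
`Pi ω = {z | ∃ n, z ∈ res A_n (ω n)}`. The configuration in the ball of radius `R` is
`⋃_{n < R} res A_n (ω n)`. Its law is `PQ d R` by induction on `R` with NVP (coordinates are independent:
`infinitePi` restricted to `Finset.range R` is `Measure.pi`, or `iIndepFun`). -/
def S_NV : Prop := ∀ d : ℕ, 0 < d → ∃ (Ω : Type) (_ : MeasurableSpace Ω) (P : Measure Ω)
  (_ : IsProbabilityMeasure P) (Pi : Ω → Set (X d)), IsPoissonMeteors P d Pi

end Run7.h146.Met
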