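import Pool.Agent.Run7.h146.Met.I3

set_option autoImplicit false

open MeasureTheory Filter Topology ENNReal

namespace Run7.h146.Met

theorem mainC_all (h1 : S_MAIN1) (h2 : S_MAIN2) (d : ℕ) (ε : ℝ) (hd : 0 < d) (hε : 0 < ε) :
    MainC d ε := by
  rcases Nat.lt_or_ge d 2 with h | h
  · have : d = 1 := by omega
    subst this
    exact h1 ε hε
  · exact h2 d ε h hε

/-- the statement of the main theorem -/
theorem final_of (h1 : S_MAIN1) (h2 : S_MAIN2) (hL : S_LOCP) (hE : S_EXI) (hF : S_FIN) (hS : S_FSF)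
    (d : ℕ) (ε : ℝ) (hd : 0 < d) (hε : 0 < ε) (Ω : Type) [MeasurableSpace Ω] (P : Measure Ω)
    [IsProbabilityMeasure P] (Pi : Ω → Set (X d)) (hP : IsPoissonMeteors P d Pi) :
    ∀ᵐ ω ∂P, InfExists ε (Pi ω) ∧ {z | z ∈ Pi ω ∧ Occupies ε (Pi ω) z}.Infinite ∧
      ∀ T : ℝ, ∃ t, T ≤ t ∧ 0 ≤ t ∧ ∃ z ∈ Pi ω, (∃ R₀ : ℝ, ∀ R, R₀ ≤ R → ExistsAt ε (Pi ω) R z t) ∧
        ‖pos z t‖ ≤ ε := by
  obtain ⟨κ, C, r₀, hloc⟩ := hL d ε hd hε
  have hex := hE Ω P d Pi ε κ C r₀ hd hε hloc hP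
  have hfin := hF Ω P d Pi ε hd hε (mainC_all h1 h2 d ε hd hε) hP hex
  have hun := (hS Ω P d Pi hd hP).2.2.2.2
  filter_upwards [hex, hfin, hun] with ω he hi hu
  refine ⟨?_, hi, ?_⟩
  · intro z hz t ht
    obtain ⟨R₀, hR₀⟩ := he z hz t
    by_cases hx : ExistsAt ε (Pi ω) R₀ z t
    · exact Or.inl ⟨R₀, fun R hR => (hR₀ R hR t ht le_rfl).2 hx⟩
    · exact Or.inr ⟨R₀, fun R hR h => hx ((hR₀ R hR t ht le_rfl).1 h)⟩
  · intro T
    -- some occupying meteor starts outside the ball of radius `T + ε + 1`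
    obtain ⟨N, hN⟩ := exists_nat_gt (|T| + ε + 1)
    have hfinite : (Pi ω ∩ {z | ‖z.1‖ < (N : ℝ)}).Finite := hP.fin ω N
    obtain ⟨z, hz, hzN⟩ : ∃ z ∈ {z | z ∈ Pi ω ∧ Occupies ε (Pi ω) z},
        z ∉ Pi ω ∩ {z | ‖z.1‖ < (N : ℝ)} := by
      by_contra hcon
      push Not at hcon
      exact hi (hfinite.subset hcon)
    obtain ⟨hzP, t, ht0, hR, hpos⟩ := hz
    have hnorm : (N : ℝ) ≤ ‖z.1‖ := by
      by_contra hlt
      exact hzN ⟨hzP, by simpa using hlt⟩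
    refine ⟨t, ?_, ht0, z, hzP, hR, hpos⟩
    have h3 : ‖z.1‖ ≤ ‖pos z t‖ + ‖t • z.2‖ := by
      have : z.1 = pos z t - t • z.2 := by simp [pos]
      calc ‖z.1‖ = ‖pos z t - t • z.2‖ := by rw [← this]
        _ ≤ ‖pos z t‖ + ‖t • z.2‖ := norm_sub_le _ _
    have h4 : ‖t • z.2‖ = t := by
      rw [norm_smul, hu z hzP, mul_one, Real.norm_eq_abs, abs_of_nonneg ht0]
    have h5 : T ≤ |T| := le_abs_self T
    linarith

end Run7.h146.Met
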