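import Pool.Agent.Run7.h146.Met.I2

set_option autoImplicit false

open MeasureTheory Filter Topology ENNReal

namespace Run7.h146.Met

theorem t_CORE : S_LOCP → S_PPM → S_LIM → S_ONE → S_TWO → S_NEAR → S_CORE := by
  intro hL hP hLim hO hT hN d ε hd hε
  obtain ⟨κ, C, r₀, h⟩ := hL d ε hd hε
  have hlim := hLim d ε κ C r₀ hd hε h
  exact ⟨κ, C, r₀, ⟨h, hlim, hO d ε κ C r₀ hd hε h hlim, hT d ε κ C r₀ hd hε h hlim,
    hN d ε hd hε, (hP d ε hd hε).1, (hP d ε hd hε).2⟩⟩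

end Run7.h146.Met
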