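import Pool.Agent.Run7.h146.Met.I2

set_option autoImplicit false
set_option linter.all false
set_option linter.style.haveILetI false

open MeasureTheory Filter Topology ENNReal

namespace Run7.h146.Met

theorem rem_pp_tendsto {p : ℝ → ℝ} (hanti : Antitone p) (h0 : ∀ t, 0 ≤ p t)
    (hs : Summable fun j : ℕ => (2 : ℝ) ^ j * p ((2 : ℝ) ^ j)) : Tendsto p atTop (𝓝 0) := by
  have h1 : Tendsto (fun j : ℕ => (2 : ℝ) ^ j * p ((2 : ℝ) ^ j)) atTop (𝓝 0) :=
    hs.tendsto_atTop_zero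
  rw [Metric.tendsto_atTop] at h1 ⊢
  intro e he
  obtain ⟨N, hN⟩ := h1 e he
  refine ⟨(2 : ℝ) ^ N, fun t ht => ?_⟩
  have h2 := hN N le_rfl
  rw [Real.dist_eq, sub_zero] at h2 ⊢
  have h3 : (1 : ℝ) ≤ (2 : ℝ) ^ N := one_le_pow₀ (by norm_num)
  have h4 : p t ≤ p ((2 : ℝ) ^ N) := hanti ht
  have h5 : p ((2 : ℝ) ^ N) ≤ (2 : ℝ) ^ N * p ((2 : ℝ) ^ N) :=
    le_mul_of_one_le_left (h0 _) h3
  rw [abs_of_nonneg (h0 t)]
  have h6 : (2 : ℝ) ^ N * p ((2 : ℝ) ^ N) < e := lt_of_le_of_lt (le_abs_self _) h2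
  linarith

theorem t_REM : S_PO1 → S_PO2 → S_PO3 → S_MK → S_RMV → S_MB → S_KIL → S_NTP → S_DM →
    S_MEAS → S_HB → S_REM := by
  classical
  intro hPO1 hPO2 hPO3 hMK hRMV hMB hKIL hNTP hDM hMEAS hHB d ε κ C r₀ hd hε hcore hsum
  obtain ⟨M, hM⟩ := hHB d ε κ C r₀ hd hε hcore hsum
  obtain ⟨hκ, hκ', hC, hr₀, -, -⟩ := hcore.loc
  obtain ⟨hsig, -, -, hmb⟩ := hMB d hd
  have hp := rem_pp_tendsto hcore.anti (fun t => (hcore.rng t).1) hsum
  -- a unit vector
  set v : V d := EuclideanSpace.single ⟨0, hd⟩ (1 : ℝ) with hv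
  have hv1 : ‖v‖ = 1 := by simp [hv]
  set z : X d := ((0 : V d), v) with hz
  have hz1 : ‖z.2‖ = 1 := hv1
  -- finite measures of balls
  have hvol : ∀ a : ℝ, volume (Metric.ball (0 : V d) a) ≠ ⊤ := fun a => measure_ball_lt_top.ne
  have hfin : ∀ a : ℝ, IsFiniteMeasure (mB (Metric.ball (0 : V d) a)) := fun a =>
    (hmb _ measurableSet_ball (hvol a)).1
  have hna : ∀ a : ℝ, NullSingletonClass (mB (Metric.ball (0 : V d) a)) := fun a =>
    (hmb _ measurableSet_ball (hvol a)).2.1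
  -- the removal constants
  have hB₀ : ∀ a : ℝ, MeasurableSet {x : X d | ‖x.1‖ < a} := fun a =>
    measurableSet_lt (measurable_fst.norm) measurable_const
  have hex : ∀ a : ℝ, ∃ Ca : ℝ≥0∞, Ca ≠ ⊤ ∧ ∀ (Q : ℝ) (A : Set (Finset (X d))), MeasurableSet A →
      PQ d Q {F | ∃ K : Finset (X d), K ⊆ F ∧ K.card ≤ M ∧ (∀ x ∈ K, x ∈ {x : X d | ‖x.1‖ < a}) ∧
        F \ K ∈ A} ≤ Ca * PQ d Q A := by
    intro a
    obtain ⟨Ca, hCa, hb⟩ := hRMV d {x : X d | ‖x.1‖ < a} M (hB₀ a)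
      (volume (Metric.ball (0 : V d) a))
    refine ⟨Ca, hCa (hvol a), fun Q A hA => ?_⟩
    haveI := hfin Q
    haveI := hna Q
    refine hb (mB (Metric.ball (0 : V d) Q)) A ?_ hA
    have hset : {x : X d | ‖x.1‖ < a} = Metric.ball (0 : V d) a ×ˢ Set.univ := by
      ext x; simp [Metric.mem_ball, dist_zero_right]
    rw [hset, mB, Measure.prod_prod, measure_univ, mul_one]
    exact (Measure.restrict_apply_le _ _)
  choose Cf hCf hCfb using hex
  -- the choice of the times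
  have hlim : ∀ a : ℝ, Tendsto (fun t : ℝ => Cf a * ENNReal.ofReal (pp d ε t + C * Real.exp (-(t / κ))))
      atTop (𝓝 0) := by
    intro a
    have h1 : Tendsto (fun t : ℝ => pp d ε t + C * Real.exp (-(t / κ))) atTop (𝓝 0) := by
      have h2 : Tendsto (fun t : ℝ => Real.exp (-(t / κ))) atTop (𝓝 0) :=
        Real.tendsto_exp_neg_atTop_nhds_zero.comp (tendsto_id.atTop_div_const hκ)
      simpa using hp.add (h2.const_mul C)
    have h3 : Tendsto (fun t : ℝ => ENNReal.ofReal (pp d ε t + C * Real.exp (-(t / κ))))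
        atTop (𝓝 0) := by
      simpa using ENNReal.tendsto_ofReal h1
    have h4 := ENNReal.Tendsto.const_mul (a := Cf a) h3 (Or.inr (hCf a))
    simpa using h4
  have hstep : ∀ (a : ℝ) (i : ℕ), ∃ t : ℝ, a ≤ t ∧ 0 ≤ t ∧ r₀ ≤ t / κ ∧
      Cf a * ENNReal.ofReal (pp d ε t + C * Real.exp (-(t / κ))) ≤ (1 / 2 : ℝ≥0∞) ^ (i + 3) := by
    intro a i
    have hpos : (0 : ℝ≥0∞) < (1 / 2 : ℝ≥0∞) ^ (i + 3) := by
      apply ENNReal.pow_pos
      simp
    have h1 := (hlim a).eventually (gt_mem_nhds hpos)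
    have h2 : ∀ᶠ t : ℝ in atTop, r₀ ≤ t / κ :=
      (tendsto_id.atTop_div_const hκ).eventually (eventually_ge_atTop r₀)
    obtain ⟨t, h3, h4, h5, h6⟩ := (h1.and (h2.and ((eventually_ge_atTop a).and
      (eventually_ge_atTop (0 : ℝ))))).exists
    exact ⟨t, h5, h6, h4, h3.le⟩
  choose tf htf1 htf2 htf3 htf4 using hstep
  set T : ℕ → ℝ := fun n => Nat.rec (0 : ℝ) (fun i t => tf (2 * t + 4 * ε + 1) i) n with hT
  have hT0 : T 0 = 0 := rfl
  have hTs : ∀ i, T (i + 1) = tf (2 * T i + 4 * ε + 1) i := fun i => rfl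
  have hTnn : ∀ i, 0 ≤ T i := by
    intro i
    cases i with
    | zero => exact le_of_eq hT0.symm
    | succ i => rw [hTs]; exact htf2 _ _
  have hTlt : ∀ i, T i ≤ T (i + 1) := by
    intro i
    rw [hTs]
    have := htf1 (2 * T i + 4 * ε + 1) i
    have := hTnn i
    linarith
  have hTm : Monotone T := monotone_nat_of_le_succ hTlt
  set L : ℕ := M + 1 with hL
  obtain ⟨Q₀, hQ₀⟩ := hM (T L) (hTnn L)
  set Q : ℝ := max Q₀ (T L / κ) with hQ
  have hG := hQ₀ Q (le_max_left _ _) v hv1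
  haveI := hfin Q
  haveI := hna Q
  haveI hprob : IsProbabilityMeasure (PQ d Q) := (hPO1 d (mB (Metric.ball (0 : V d) Q))).1
  -- the events of removal
  set E : ℕ → Set (Finset (X d)) := fun i => {F | ∃ K : Finset (X d), K ⊆ F ∧ K.card ≤ M ∧
    (∀ x ∈ K, x ∈ {x : X d | ‖x.1‖ < 2 * T i + 4 * ε + 1}) ∧
    F \ K ∈ {G | alive ε z (T (i + 1)) G}} with hE
  have halive : ∀ i < L, PQ d Q {G | alive ε z (T (i + 1)) G} ≤
      ENNReal.ofReal (pp d ε (T (i + 1)) + C * Real.exp (-(T (i + 1) / κ))) := by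
    intro i hi
    have hr : r₀ ≤ T (i + 1) / κ := by rw [hTs]; exact htf3 _ _
    have hle : T (i + 1) / κ ≤ Q := by
      refine le_trans ?_ (le_max_right _ _)
      have h0 : T (i + 1) ≤ T L := hTm (show i + 1 ≤ L by omega)
      exact div_le_div_of_nonneg_right h0 hκ.le
    have h1 := (hcore.one (T (i + 1) / κ) (T (i + 1)) 0 z (Metric.ball (0 : V d) Q) Set.univ hr
      (hTnn (i + 1)) (by rw [mul_div_cancel₀ _ hκ.ne']) hz1 measurableSet_ball (hvol Q)
      MeasurableSet.univ (by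
        show Metric.ball (0 : V d) _ ⊆ _
        exact Metric.ball_subset_ball hle) (by simp) (by simp)).1
    haveI := hfin 0
    haveI : IsProbabilityMeasure (PQ d 0) := (hPO1 d (mB (Metric.ball (0 : V d) 0))).1
    rw [measure_univ, one_mul] at h1
    simp only [Set.mem_univ, true_and] at h1
    exact h1
  have hEm : ∀ i < L, PQ d Q (E i) ≤ (1 / 2 : ℝ≥0∞) ^ (i + 3) := by
    intro i hi
    have hmeas : MeasurableSet {G : Finset (X d) | alive ε z (T (i + 1)) G} :=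
      (hMEAS d ε hd hε).2.2.2.2.2.1 z (T (i + 1))
    calc PQ d Q (E i) ≤ Cf (2 * T i + 4 * ε + 1) * PQ d Q {G | alive ε z (T (i + 1)) G} :=
          hCfb _ Q _ hmeas
      _ ≤ Cf (2 * T i + 4 * ε + 1) *
          ENNReal.ofReal (pp d ε (T (i + 1)) + C * Real.exp (-(T (i + 1) / κ))) := by
          gcongr
          exact halive i hi
      _ ≤ (1 / 2 : ℝ≥0∞) ^ (i + 3) := by
          rw [hTs]; exact htf4 _ _
  -- the null events
  have hN1 : PQ d Q {F | ¬ NT ε (ins z F)} = 0 :=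
    (hNTP d ε hd hε _ measurableSet_ball (hvol Q)).2 z hz1
  have hN2 : PQ d Q {F | ∃ y ∈ F, ‖y.2‖ ≠ 1} = 0 := (hmb _ measurableSet_ball (hvol Q)).2.2.2
  have hN3 : PQ d Q {F | z ∈ F} = 0 := (hMK d (mB (Metric.ball (0 : V d) Q))).2 z
  -- the inclusion
  have hsub : {F : Finset (X d) | 2 * (F.filter fun y => ‖y.1‖ ≤ 6 * ε).card +
      2 * (hits ε ((0 : V d), v) (T L) F).card ≤ M} ⊆
      ({F | ¬ NT ε (ins z F)} ∪ {F | ∃ y ∈ F, ‖y.2‖ ≠ 1} ∪ {F | z ∈ F}) ∪
        ⋃ i ∈ Finset.range L, E i := by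
    intro F hF
    by_contra hcon
    simp only [Set.mem_union, Set.mem_setOf_eq, Set.mem_iUnion, Finset.mem_range, not_or,
      not_not, not_exists, not_and] at hcon
    obtain ⟨⟨⟨hnt, hun⟩, hzF⟩, hEi⟩ := hcon
    obtain ⟨K, hKm, hK⟩ := hKIL d ε hε F z hzF hz1 hun hnt
    have hcard : ∀ i ≤ L, (K (T i)).card ≤ M := by
      intro i hi
      have h1 : (K (T i)).card ≤ (K (T L)).card := Finset.card_le_card (hKm (hTm hi))
      have h2 := (hK (T L) (hTnn L)).2.2.2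
      have h3 : (F.filter fun y => ‖y.1 - z.1‖ ≤ 6 * ε) = F.filter fun y => ‖y.1‖ ≤ 6 * ε := by
        apply Finset.filter_congr
        intro y _
        simp [hz]
      rw [h3] at h2
      exact h1.trans (h2.trans hF)
    have hgrow : ∀ i ≤ L, i ≤ (K (T i)).card := by
      intro i
      induction i with
      | zero => intro _; exact Nat.zero_le _
      | succ i ih =>
        intro hi
        have h1 := ih (by omega)
        have hKi := hK (T i) (hTnn i)
        have hKs := hK (T (i + 1)) (hTnn (i + 1))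
        have h2 : ∃ x ∈ K (T (i + 1)), 2 * T i + 4 * ε + 1 ≤ ‖x.1‖ := by
          by_contra hno
          push Not at hno
          exact hEi i (by omega) ⟨K (T (i + 1)), hKs.1, hcard _ hi, hno, hKs.2.2.1⟩
        obtain ⟨x, hx, hxn⟩ := h2
        have h3 : x ∉ K (T i) := by
          intro hxi
          have := hKi.2.1 x hxi
          have h4 : ‖x.1 - z.1‖ = ‖x.1‖ := by simp [hz]
          rw [h4] at this
          linarith
        have h5 : K (T i) ⊂ K (T (i + 1)) := by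
          rw [Finset.ssubset_iff_of_subset (hKm (hTlt i))]
          exact ⟨x, hx, h3⟩
        have := Finset.card_lt_card h5
        omega
    have h1 := hgrow L le_rfl
    have h2 := hcard L le_rfl
    omega
  -- the contradiction
  have hfinal : (1 / 2 : ℝ≥0∞) ≤ 1 / 4 := by
    calc (1 / 2 : ℝ≥0∞) ≤ _ := hG
      _ ≤ PQ d Q (({F | ¬ NT ε (ins z F)} ∪ {F | ∃ y ∈ F, ‖y.2‖ ≠ 1} ∪ {F | z ∈ F}) ∪
        ⋃ i ∈ Finset.range L, E i) := measure_mono hsub
      _ ≤ PQ d Q ({F | ¬ NT ε (ins z F)} ∪ {F | ∃ y ∈ F, ‖y.2‖ ≠ 1} ∪ {F | z ∈ F}) +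
        PQ d Q (⋃ i ∈ Finset.range L, E i) := measure_union_le _ _
      _ ≤ 0 + ∑ i ∈ Finset.range L, PQ d Q (E i) := by
          gcongr
          · have := measure_union_null (measure_union_null hN1 hN2) hN3
            exact le_of_eq this
          · exact measure_biUnion_finset_le _ _
      _ ≤ 0 + ∑ i ∈ Finset.range L, (1 / 2 : ℝ≥0∞) ^ (i + 3) := by
          gcongr with i hi
          exact hEm i (Finset.mem_range.1 hi)
      _ ≤ ∑' i : ℕ, (1 / 2 : ℝ≥0∞) ^ (i + 3) := by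
          rw [zero_add]
          exact ENNReal.sum_le_tsum _
      _ = 1 / 4 := by
          simp_rw [pow_add]
          rw [ENNReal.tsum_mul_right, ENNReal.tsum_geometric]
          have h1 : (1 : ℝ≥0∞) - 1 / 2 = 1 / 2 := by
            rw [one_div]
            exact ENNReal.one_sub_inv_two
          rw [h1]
          rw [one_div, inv_inv]
          have h2 : (2 : ℝ≥0∞) * (2⁻¹ ^ 3) = 2⁻¹ ^ 2 := by
            rw [pow_succ' (2⁻¹ : ℝ≥0∞) 2, ← mul_assoc, ENNReal.mul_inv_cancel (by norm_num)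
              (by norm_num), one_mul]
          rw [h2, ← ENNReal.inv_pow]
          norm_num
  have h2 : ¬ ((1 / 2 : ℝ≥0∞) ≤ 1 / 4) := by
    rw [not_le, one_div, one_div, ENNReal.inv_lt_inv]
    norm_num
  exact h2 hfinal

end Run7.h146.Met
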