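import Pool.Agent.Run7.h146.Met.Asm
import Pool.Agent.Run7.h146.Met.CORE
import Pool.Agent.Run7.h146.Met.REM
import Pool.Agent.Run7.h847.Met.DYN
import Pool.Agent.Run7.h847.Met.MEAS
import Pool.Agent.Run7.h847.Met.SING
import Pool.Agent.Run7.h863.Met.DM
import Pool.Agent.Run7.h192.Met.KIL
import Pool.Agent.Run7.h192.Met.LOCD
import Pool.Agent.Run7.h300.Met.MAP
import Pool.Agent.Run7.h633.Met.MB
import Pool.Agent.Run7.h633.Met.NTP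
import Pool.Agent.Run7.h624.Met.MK
import Pool.Agent.Run7.h624.Met.RMV
import Pool.Agent.Run7.h624.Met.EXI
import Pool.Agent.Run7.h391.Met.CR
import Pool.Agent.Run7.h391.Met.SMA
import Pool.Agent.Run7.h662.Met.LCM
import Pool.Agent.Run7.h559.Met.MAIN2
import Pool.Agent.Run7.h376.Met.D1A
import Pool.Agent.Run7.h376.Met.EN
import Pool.Agent.Run7.h15.Met.LCB
import Pool.Agent.Run7.h212.Met.OCV
import Pool.Agent.Run7.h331.Met.SEQ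
import Pool.Agent.Run7.h590.Met.ONE
import Pool.Agent.Run7.h622.Met.FSF
import Pool.Agent.Run7.h622.Met.FIN
import Pool.Agent.Run7.h842.Met.CM
import Pool.Agent.Run7.h842.Met.CT
import Pool.Agent.Run7.h842.Met.U1
import Pool.Agent.Run7.h904.Met.LOCP
import Pool.Agent.Run7.h950.Met.CAP
import Pool.Agent.Run7.h950.Met.IND
import Pool.Agent.Run7.h950.Met.PPM
import Pool.Agent.Run7.h950.Met.PZ
import Pool.Agent.Run7.h950.Met.SEP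
import Pool.Agent.Run7.h950.Met.STA
import Pool.Agent.Run7.h950.Met.ZO
import Pool.Agent.Run7.h116.Met.PO1
import Pool.Agent.Run7.h116.Met.PO2
import Pool.Agent.Run7.h116.Met.SUP
import Pool.Agent.Run7.h212.Met.LIM
import Pool.Agent.Run7.h646.Met.STAR
import Pool.Agent.Run7.h803.Met.GI
import Pool.Agent.Run7.h803.Met.PAIR
import Pool.Agent.Run7.h863.Met.D1B
import Pool.Agent.Run7.h904.Met.SM
import Pool.Agent.Run7.h933.Met.MAIN1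

set_option autoImplicit false

open MeasureTheory Filter Topology ENNReal

namespace Run7.h146.Met

theorem a_PO1 : S_PO1 := Run7.h116.Met.t_PO1
theorem a_PO2 : S_PO2 := Run7.h116.Met.t_PO2
theorem a_PO3 : S_PO3 := Run7.h116.Met.t_PO3
theorem a_SUP : S_SUP := Run7.h116.Met.t_SUP
theorem a_MK : S_MK := Run7.h624.Met.t_MK a_PO1 a_PO2 a_PO3
theorem a_IND : S_IND := Run7.h950.Met.t_IND a_SUP a_PO1 a_PO2
theorem a_MAP : S_MAP := Run7.h300.Met.t_MAP a_PO1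
theorem a_RMV : S_RMV := Run7.h624.Met.t_RMV a_PO1 a_PO2 a_PO3 a_MK
theorem a_MB : S_MB := Run7.h633.Met.t_MB a_PO1
theorem a_CT : S_CT := Run7.h842.Met.t_CT
theorem a_DYN : S_DYN := Run7.h847.Met.t_DYN
theorem a_DM : S_DM := Pool.Agent.Run7.h863.Met.t_DM a_CT a_DYN
theorem a_DIN : S_DIN := Run7.h847.Met.t_DIN a_CT a_DYN
theorem a_U1 : S_U1 := Run7.h842.Met.t_U1 a_CT a_DYN
theorem a_DEL : S_DEL := Run7.h847.Met.t_DEL a_CT a_DYN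
theorem a_GH : S_GH := Run7.h847.Met.t_GH a_CT a_DYN
theorem a_LOCD : S_LOCD := Run7.h192.Met.t_LOCD a_CT a_DYN
theorem a_KIL : S_KIL := Run7.h192.Met.t_KIL a_CT a_DYN a_DEL a_GH
theorem a_CAP : S_CAP := Run7.h950.Met.t_CAP
theorem a_CM : S_CM := Run7.h842.Met.t_CM a_CT a_MB a_CAP
theorem a_SEP : S_SEP := Run7.h950.Met.t_SEP
theorem a_EN : S_EN := Run7.h376.Met.t_EN a_PO1 a_PO2 a_PO3 a_MK a_MB a_CT a_CM
theorem a_NTP : S_NTP := Run7.h633.Met.t_NTP a_PO1 a_PO2 a_PO3 a_MK a_MB a_CT a_CM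
theorem a_SEQ : S_SEQ := Run7.h331.Met.t_SEQ
theorem a_ZO : S_ZO := Run7.h950.Met.t_ZO
theorem a_PZ : S_PZ := Run7.h950.Met.t_PZ
theorem a_D1A : S_D1A := Run7.h376.Met.t_D1A a_CT a_DYN a_U1
theorem a_D1B : S_D1B := Pool.Agent.Run7.h863.Met.t_D1B a_PO1 a_PO2 a_PO3 a_SUP a_IND a_MB a_MAP a_CT
  a_DYN a_DM
theorem a_MEAS : S_MEAS := Run7.h847.Met.t_MEAS a_PO1 a_PO2 a_PO3 a_CT a_DYN a_DM a_MB a_EN
theorem a_SING : S_SING := Run7.h847.Met.t_SING a_PO1 a_PO2 a_PO3 a_MK a_MB a_DM a_MEAS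
theorem a_PAIR : S_PAIR := Run7.h803.Met.t_PAIR a_PO1 a_PO2 a_PO3 a_MK a_MB a_DM a_MEAS
theorem a_GI : S_GI := Run7.h803.Met.t_GI a_MB a_CAP
theorem a_OCV : S_OCV := Run7.h212.Met.t_OCV
theorem a_LOCP : S_LOCP := Run7.h904.Met.t_LOCP a_PO1 a_MB a_LOCD a_EN
theorem a_PPM : S_PPM := Run7.h950.Met.t_PPM a_MB a_PO1
theorem a_LIM : S_LIM := Run7.h212.Met.t_LIM a_PO1 a_MK a_MB a_IND a_MAP a_CT a_DYN a_DIN a_MEAS
theorem a_ONE : S_ONE := Run7.h590.Met.t_ONE a_PO1 a_MK a_MB a_IND a_MEAS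
theorem a_TWO : S_TWO := Run7.h590.Met.t_TWO a_PO1 a_MK a_MB a_IND a_MEAS
theorem a_NEAR : S_NEAR := Run7.h950.Met.t_NEAR a_PO1 a_MK a_MB a_DEL
theorem a_CORE : S_CORE := t_CORE a_LOCP a_PPM a_LIM a_ONE a_TWO a_NEAR
theorem a_STA : S_STA := Run7.h950.Met.t_STA a_PO1 a_PO2 a_PO3 a_MK a_MB a_CT a_DYN a_DM a_MEAS
theorem a_STAR : S_STAR := Run7.h646.Met.t_STAR a_PO1 a_MB a_CT a_CM a_STA
theorem a_SMA : S_SMA := Run7.h391.Met.t_SMA a_MB a_SEP a_MEAS a_SING a_PAIR a_GI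
theorem a_SM : S_SM := Run7.h904.Met.t_SM a_MEAS a_SMA
theorem a_CR : S_CR := Run7.h391.Met.t_CR a_MB a_MEAS a_PAIR a_GI
theorem a_LCB : S_LCB := Run7.h15.Met.t_LCB a_PO1 a_MB a_IND a_MAP a_MEAS
theorem a_LCM : S_LCM := Run7.h662.Met.t_LCM a_PO1 a_MK a_MB a_IND a_MAP a_CT a_DYN a_DIN a_MEAS a_SING
theorem a_MAIN1 : S_MAIN1 := Run7.h933.Met.t_MAIN1 a_PO1 a_PO2 a_PO3 a_MK a_MB a_NTP a_MEAS a_D1A a_D1B
theorem a_FSF : S_FSF := Run7.h622.Met.t_FSF a_PO1 a_MB a_MEAS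
theorem a_EXI : S_EXI := Run7.h624.Met.t_EXI a_PO1 a_PO2 a_PO3 a_MK a_MB a_MEAS a_FSF
theorem a_FIN : S_FIN := Run7.h622.Met.t_FIN a_PO1 a_MB a_ZO a_MEAS a_FSF

theorem a_REM (hHB : S_HB) : S_REM :=
  t_REM a_PO1 a_PO2 a_PO3 a_MK a_RMV a_MB a_KIL a_NTP a_DM a_MEAS hHB

theorem a_MAIN2 (hHB : S_HB) (hLC : S_LC) : S_MAIN2 :=
  Run7.h559.Met.t_MAIN2 a_PO1 a_MB a_IND a_SEQ a_PZ a_MEAS a_OCV a_CORE (a_REM hHB) a_STAR a_SM a_CR hLC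

end Run7.h146.Met
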