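import Mathlib

/-!
# Annihilating ballistic meteors: definitions (project MP_dd21b1_pr, helper146)

A meteor `z = (x, v)` has its centre `x + t v` at time `t`; `ε` is the radius.
-/

set_option autoImplicit false

open MeasureTheory Filter Topology ENNReal

namespace Run7.h146.Met

/-- Euclidean space -/
abbrev V (d : ℕ) := EuclideanSpace ℝ (Fin d)

/-- a meteor: position at time `0` and velocity -/
abbrev X (d : ℕ) := V d × V d

/-- position at time `t` -/
def pos {d : ℕ} (z : X d) (t : ℝ) : V d := z.1 + t • z.2

/-- the first time at which the closed balls of radius `ε` of the two meteors (continuing for ever)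
touch; `⊤` if they never do -/
noncomputable def ct {d : ℕ} (ε : ℝ) (z y : X d) : ℝ≥0∞ :=
  ⨅ (t : ℝ) (_ : 0 ≤ t ∧ ‖pos z t - pos y t‖ ≤ 2 * ε), ENNReal.ofReal t

/-- `D` gives the removal times of the finite system `S`: a meteor is removed at the first time at
which it touches a meteor that has not been removed before. -/
def IsD {d : ℕ} (ε : ℝ) (S : Finset (X d)) (D : X d → ℝ≥0∞) : Prop :=
  ∀ z ∈ S, D z = ⨅ (y : X d) (_ : y ∈ S ∧ y ≠ z ∧ ct ε z y ≤ D y), ct ε z y

open Classical in
/-- the removal times of the finite system `S` (see `S_DYN` for existence and uniqueness) -/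
noncomputable def dt {d : ℕ} (ε : ℝ) (S : Finset (X d)) : X d → ℝ≥0∞ :=
  if h : ∃ D, IsD ε S D ∧ ∀ z, z ∉ S → D z = 0 then h.choose else 0

/-- the uniform law on the unit sphere: the law of `x / |x|`, `x` uniform in the unit ball -/
noncomputable def sig (d : ℕ) : Measure (V d) :=
  ((volume (Metric.ball (0 : V d) 1))⁻¹ • volume.restrict (Metric.ball (0 : V d) 1)).map
    (fun x => ‖x‖⁻¹ • x)

/-- the intensity measure of the meteors with initial position in `B` -/
noncomputable def mB {d : ℕ} (B : Set (V d)) : Measure (X d) := (volume.restrict B).prod (sig d)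

open Classical in
/-- the σ-algebra on finite configurations: a class `A` is measurable when for every `n` the set of
the `y ∈ α ^ n` with `{y_1, …, y_n} ∈ A` is measurable -/
noncomputable instance fms {α : Type*} [MeasurableSpace α] : MeasurableSpace (Finset α) :=
  ⨅ n : ℕ, MeasurableSpace.map (fun y : Fin n → α => Finset.univ.image y) inferInstance

open Classical in
/-- the law of a Poisson process with finite intensity measure `ν`: the number of the points is
Poisson with parameter `ν(α)`, and given their number the points are i.i.d. -/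
noncomputable def poi {α : Type*} [MeasurableSpace α] (ν : Measure α) : Measure (Finset α) :=
  Measure.sum fun n : ℕ => (ENNReal.ofReal (Real.exp (-(ν Set.univ).toReal)) / (n.factorial : ℝ≥0∞)) •
    (Measure.pi (fun _ : Fin n => ν)).map (fun y => Finset.univ.image y)

open Classical in
/-- measurability of a functional of a parameter and a finite configuration -/
def TM {β α : Type*} [MeasurableSpace β] [MeasurableSpace α] (h : β → Finset α → ℝ≥0∞) : Prop :=
  ∀ n : ℕ, Measurable fun p : β × (Fin n → α) => h p.1 (Finset.univ.image p.2)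

open Classical in
/-- the points of `F` with position in `B` -/
noncomputable def res {d : ℕ} (B : Set (V d)) (F : Finset (X d)) : Finset (X d) :=
  F.filter fun z => z.1 ∈ B

open Classical in
/-- insertion of a point -/
noncomputable def ins {α : Type*} (z : α) (F : Finset α) : Finset α := insert z F

open Classical in
/-- deletion of a point -/
noncomputable def del {α : Type*} (z : α) (F : Finset α) : Finset α := F.erase z

/-- the meteor `z`, added to `F`, exists at time `t` -/
def alive {d : ℕ} (ε : ℝ) (z : X d) (t : ℝ) (F : Finset (X d)) : Prop :=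
  ENNReal.ofReal t < dt ε (ins z F) z

open Classical in
/-- the number of contact chains `z → y_1 → ⋯ → y_k` in `F` with distinct `y_i` and times
`s > ct z y_1 > ct y_1 y_2 > ⋯ > 0` -/
noncomputable def nch {d : ℕ} (ε : ℝ) : ℕ → X d → ℝ≥0∞ → Finset (X d) → ℝ≥0∞
  | 0, _, _, _ => 1
  | k + 1, z, s, F => ∑ y ∈ F, if 0 < ct ε z y ∧ ct ε z y < s then nch ε k y (ct ε z y) (del y F)
      else 0

open Classical in
/-- the number of the meteors of `F` which exist at time `t` and cover the origin then (it is `0` or
`1`) -/
noncomputable def Un {d : ℕ} (ε : ℝ) (t : ℝ) (F : Finset (X d)) : ℝ≥0∞ :=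
  ∑ z ∈ F, if ENNReal.ofReal t < dt ε F z ∧ ‖pos z t‖ ≤ ε then 1 else 0

open Classical in
/-- the number of the meteors of `F` which cover the origin at some time in `[0, N]` at which they
exist -/
noncomputable def Occ {d : ℕ} (ε N : ℝ) (F : Finset (X d)) : ℕ :=
  (F.filter fun z => ∃ t, 0 ≤ t ∧ t ≤ N ∧ ENNReal.ofReal t < dt ε F z ∧ ‖pos z t‖ ≤ ε).card

/-- the law of the configuration in the ball of radius `Q` about the origin -/
noncomputable def PQ (d : ℕ) (Q : ℝ) : Measure (Finset (X d)) := poi (mB (Metric.ball (0 : V d) Q))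

/-- the probability that an additional meteor, started at the origin in a uniform direction, exists
at time `t` -/
noncomputable def pp (d : ℕ) (ε t : ℝ) : ℝ :=
  (limsup (fun Q : ℕ => ∫⁻ v, PQ d Q {F | alive ε ((0 : V d), v) t F} ∂(sig d)) atTop).toReal

/-- `V_j`: the number of the integer times in `[2^j, 2^(j+1))` at which the origin is covered -/
noncomputable def Vj {d : ℕ} (ε : ℝ) (j : ℕ) (F : Finset (X d)) : ℝ≥0∞ :=
  ∑ n ∈ Finset.Ico (2 ^ j : ℕ) (2 ^ (j + 1) : ℕ), Un ε (n : ℝ) F

/-- `H_j` -/
noncomputable def HH (P : ℕ → ℝ) (k j : ℕ) : ℝ :=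
  (∑ i ∈ Finset.Icc (j / 2 - k : ℕ) j, ((2 : ℝ) ^ i * P i) ^ 2) + (1 / 2 : ℝ) ^ j

/-! ### The infinite system -/

/-- `Pi` is a Poisson process of meteors: homogeneous of intensity one in space, with independent
uniform directions. That is, for every `R` the configuration in the ball of radius `R` is finite
and has the law of `N` independent uniform points of the ball with independent uniform directions,
where `N` is a Poisson variable with parameter the volume of the ball. -/
structure IsPoissonMeteors {Ω : Type*} [MeasurableSpace Ω] (P : Measure Ω) (d : ℕ)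
    (Pi : Ω → Set (X d)) : Prop where
  fin : ∀ ω (R : ℕ), (Pi ω ∩ {z | ‖z.1‖ < R}).Finite
  meas : ∀ R : ℕ, Measurable fun ω => (fin ω R).toFinset
  law : ∀ R : ℕ, P.map (fun ω => (fin ω R).toFinset) = PQ d R

open Classical in
/-- the meteors of `S` with initial position in the open ball of radius `R`, as a finite set -/
noncomputable def fs {d : ℕ} (S : Set (X d)) (R : ℝ) : Finset (X d) :=
  if h : (S ∩ {z | ‖z.1‖ < R}).Finite then h.toFinset else ∅

/-- `z` exists at time `t` in the `R`-dynamics -/
def ExistsAt {d : ℕ} (ε : ℝ) (S : Set (X d)) (R : ℝ) (z : X d) (t : ℝ) : Prop :=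
  ENNReal.ofReal t < dt ε (fs S R) z

/-- the infinite process exists: whether `z` still exists at time `t` in the `R`-dynamics does not
depend on `R` for all large `R` -/
def InfExists {d : ℕ} (ε : ℝ) (S : Set (X d)) : Prop :=
  ∀ z ∈ S, ∀ t, 0 ≤ t → (∃ R₀ : ℝ, ∀ R, R₀ ≤ R → ExistsAt ε S R z t) ∨
    ∃ R₀ : ℝ, ∀ R, R₀ ≤ R → ¬ ExistsAt ε S R z t

/-- `z` occupies the origin at some time in the infinite process -/
def Occupies {d : ℕ} (ε : ℝ) (S : Set (X d)) (z : X d) : Prop :=
  ∃ t, 0 ≤ t ∧ (∃ R₀ : ℝ, ∀ R, R₀ ≤ R → ExistsAt ε S R z t) ∧ ‖pos z t‖ ≤ ε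

end Run7.h146.Met
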