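import Pool.Agent.Run7.h146.Met.Defs

/-!
# Interface 1: Poisson toolkit, deterministic dynamics, geometry, sequences, dimension one

Every `S_XXX` is a closed Prop with its proof in the comment. Piece XXX: theorem
`t_XXX : S_A → S_B → ⋯ → S_XXX` (hypotheses as listed in the comment; you may use any other `S_YYY`
stated before as a further hypothesis, write it in the note) in `Pool/Agent/Run7/<you>/Met/XXX.lean`,
importing this file. Pieces without listed hypotheses: `t_XXX : S_XXX`. You may use the starting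
files and split a piece into several of your own.
-/

set_option autoImplicit false

open MeasureTheory Filter Topology ENNReal

namespace Run7.h146.Met

/-! ## A. Poisson toolkit (`poi ν`, `ν` a finite measure on `X d`) -/

/-- PO1 (60 lines). The integral formula.
Proof. A function `G` on `Finset (X d)` is measurable for `fms` iff all `G ∘ (y ↦ univ.image y)` are
measurable (`MeasurableSpace.map`, `iInf`: `MeasurableSpace.measurableSet_iInf`). `lintegral_sum_measure`,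
`lintegral_smul_measure`, `lintegral_map`. Total mass: `∑ e^{-m} m^n / n! = 1`, `m = (ν univ).toReal`
(`NormedSpace.exp`, `Measure.pi_univ`). The last clause: `Measurable (F ↦ F.card)` etc. is not needed;
`TM` and measurability: `TM (fun _ => G) ↔ Measurable G`, and a section of a `TM` functional is
measurable. -/
def S_PO1 : Prop := ∀ (d : ℕ) (ν : Measure (X d)) [IsFiniteMeasure ν],
  IsProbabilityMeasure (poi ν) ∧
  (∀ G : Finset (X d) → ℝ≥0∞, Measurable G → ∫⁻ F, G F ∂(poi ν) =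
    ∑' n : ℕ, (ENNReal.ofReal (Real.exp (-(ν Set.univ).toReal)) / (n.factorial : ℝ≥0∞)) *
      ∫⁻ y : Fin n → X d, G (Finset.univ.image y) ∂(Measure.pi fun _ => ν)) ∧
  (∀ (β : Type) [MeasurableSpace β] (h : β → Finset (X d) → ℝ≥0∞), TM h → ∀ b, Measurable (h b)) ∧
  (∀ (β : Type) [MeasurableSpace β] (G : Finset (X d) → ℝ≥0∞), Measurable G →
    TM (fun _ : β => G))

open Classical in
/-- PO2 (150 lines). Closure properties of `TM`; `β` is any measurable space of parameters.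
(1) insertion of the parameter: `insert z (univ.image y) = univ.image (Fin.cons z y)`, `Fin.cons` is
measurable.
(2) deletion: split in the finitely many cases which `y_i` are equal to the parameter (measurable sets,
the diagonal of `X d` is closed); on each case `(univ.image y).erase z = image of the remaining y_i`:
for a set `I ⊆ Fin n` of remaining indices reindex `I` by `Fin I.card` (`Finset.orderEmbOfFin`).
(3) sums over `F`: `∑ x ∈ univ.image y, h (b, x) (..) = ∑ i, if (∀ j < i, y j ≠ y i) then h (b, y i) (..)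
else 0`.
(4) filter: as in (2), cases which `y_i` satisfy `(b, y_i) ∈ C`.
(5), (6): PO1 and Tonelli for each `n` (`lintegral_tsum`, `lintegral_lintegral_swap`). -/
def S_PO2 : Prop := ∀ (d : ℕ) (β : Type) [MeasurableSpace β] (h : β → Finset (X d) → ℝ≥0∞), TM h →
  TM (fun (p : β × X d) F => h p.1 (ins p.2 F)) ∧
  TM (fun (p : β × X d) F => h p.1 (del p.2 F)) ∧
  (∀ C : Set (β × X d), MeasurableSet C → TM (fun b F => h b (F.filter fun x => (b, x) ∈ C))) ∧
  (∀ (ν : Measure (X d)) [IsFiniteMeasure ν], Measurable (fun b => ∫⁻ F, h b F ∂(poi ν))) ∧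
  (∀ (ν : Measure (X d)) [IsFiniteMeasure ν] (κ : Measure β) [SFinite κ],
    ∫⁻ b, ∫⁻ F, h b F ∂(poi ν) ∂κ = ∫⁻ F, ∫⁻ b, h b F ∂κ ∂(poi ν))

/-- PO3 (50 lines). Sums over the points, see PO2 (3). -/
def S_PO3 : Prop := ∀ (d : ℕ) (β : Type) [MeasurableSpace β] (h : β × X d → Finset (X d) → ℝ≥0∞),
  TM h → TM (fun (b : β) F => ∑ x ∈ F, h (b, x) F)

/-- MK (120 lines). The Mecke formula. The starting file `Pool/Agent/W337/CB/Mecke.lean` proves the
same for multisets.
Proof. By PO1 the left side is `∑_n c_n ∫ ∑_{x ∈ image y} h x (image y)`, `c_n = e^{-m}/n!`. For almost all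
`y` the `y_i` are distinct (no atoms), so the sum is `∑_i h (y_i) (image y)`. By symmetry
(`measurePreserving_piFinSuccAbove`) every `i` gives `∫∫ h x (insert x (image y')) dν^{n-1}(y') dν(x)`, and
`c_n n = c_{n-1}`. The second clause: a given point is almost surely not in `F`. -/
def S_MK : Prop := ∀ (d : ℕ) (ν : Measure (X d)) [IsFiniteMeasure ν] [NullSingletonClass ν],
  (∀ h : X d → Finset (X d) → ℝ≥0∞, TM h →
    ∫⁻ F, ∑ x ∈ F, h x F ∂(poi ν) = ∫⁻ x, ∫⁻ F, h x (ins x F) ∂(poi ν) ∂ν) ∧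
  ∀ x : X d, poi ν {F | x ∈ F} = 0

open Classical in
/-- SUP (200 lines). Splitting: the points in `B` and those in the complement of `B` are independent
Poisson processes.
Proof. `ν = ν₁ + ν₂` (restrictions). With PO1 the left side is
`e^{-m} ∑_n 1/n! ∫ G₁(filter) G₂(filter) dν^n`. Expand `∫_{α^n} = ∑_{I ⊆ Fin n} ∫_{y_i ∈ B iff i ∈ I}`; by
symmetry of the integrand under permutations the term of `I` depends only on `k = |I|` and equals
`(∫ G₁(image y) dν₁^k) (∫ G₂(image y) dν₂^{n-k})`; `1/n! * choose n k = 1/(k! (n-k)!)`, Cauchy product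
(`ENNReal.tsum_mul_left/right`, `Finset.Nat.antidiagonal`). A convenient way is induction on `n` for
`A_n(G) := ∫_{α^n} G(image y)`, `G F = G₁(F.filter) G₂(F.filter)`: one coordinate is in `B` or not, and
with `G₁ˣ F = G₁ (insert x F)` one gets a Pascal recursion:
`A_n(G₁,G₂) = ∑_{k} choose n k a_k(G₁) b_{n-k}(G₂)` by induction from `A_{n+1}(G₁,G₂) = ∫_B A_n(G₁ˣ,G₂) +
∫_{B^c} A_n(G₁,G₂ˣ)` and `a_{k+1}(G₁) = ∫_B a_k(G₁ˣ)`. (`Measure.pi` on `Fin (n+1)` =
`volume.prod`: `measurePreserving_piFinSuccAbove _ 0`.) -/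
def S_SUP : Prop := ∀ (d : ℕ) (ν : Measure (X d)) [IsFiniteMeasure ν] (B : Set (X d)),
  MeasurableSet B → ∀ G₁ G₂ : Finset (X d) → ℝ≥0∞, Measurable G₁ → Measurable G₂ →
  ∫⁻ F, G₁ (F.filter fun z => z ∈ B) * G₂ (F.filter fun z => z ∉ B) ∂(poi ν) =
    (∫⁻ F, G₁ F ∂(poi (ν.restrict B))) * ∫⁻ F, G₂ F ∂(poi (ν.restrict Bᶜ))

/-- IND (80 lines; `t_IND : S_SUP → S_PO1 → S_PO2 → S_IND`). Independence of the configurations in three disjoint regions, and restriction.
Proof. SUP twice; `(mB B).restrict (B₁ ×ˢ univ) = mB B₁` for `B₁ ⊆ B` (`Measure.prod_restrict`), and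
`res B₁ (res B₂ F) = res (B₁ ∩ B₂) F`. (Apply SUP with `B₁ ×ˢ univ` to `G₁` and
`F ↦ G₂ (res B₂ F) G₃ (res B₃ F)`.) -/
def S_IND : Prop := ∀ (d : ℕ) (B B₁ B₂ B₃ : Set (V d)), 0 < d →
  MeasurableSet B → volume B ≠ ⊤ → MeasurableSet B₁ → MeasurableSet B₂ → MeasurableSet B₃ →
  B₁ ⊆ B → B₂ ⊆ B → B₃ ⊆ B → Disjoint B₁ B₂ → Disjoint B₁ B₃ → Disjoint B₂ B₃ →
  ∀ G₁ G₂ G₃ : Finset (X d) → ℝ≥0∞, Measurable G₁ → Measurable G₂ → Measurable G₃ →
  Measurable (fun F => G₁ (res B₁ F)) ∧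
  ∫⁻ F, G₁ (res B₁ F) ∂(poi (mB B)) = ∫⁻ F, G₁ F ∂(poi (mB B₁)) ∧
  ∫⁻ F, G₁ (res B₁ F) * G₂ (res B₂ F) * G₃ (res B₃ F) ∂(poi (mB B)) =
    (∫⁻ F, G₁ F ∂(poi (mB B₁))) * (∫⁻ F, G₂ F ∂(poi (mB B₂))) * ∫⁻ F, G₃ F ∂(poi (mB B₃))

open Classical in
/-- MAP (50 lines; `t_MAP : S_PO1 → S_MAP`). Image of a Poisson process under a bijection.
Proof. PO1 on both sides; `Measure.pi (fun _ => ν.map e) = (Measure.pi fun _ => ν).map (fun y i => e (y i))`
(`MeasureTheory.Measure.pi_map_pi` or `MeasurePreserving.pi`), `(univ.image y).image e = univ.image (e ∘ y)`. -/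
def S_MAP : Prop := ∀ (d : ℕ) (ν : Measure (X d)) [IsFiniteMeasure ν] (e : X d ≃ᵐ X d)
  (G : Finset (X d) → ℝ≥0∞), Measurable G →
  Measurable (fun F : Finset (X d) => G (F.image e)) ∧
  ∫⁻ F, G F ∂(poi (ν.map e)) = ∫⁻ F, G (F.image e) ∂(poi ν)

/-- RMV (120 lines; `t_RMV : S_PO1 → S_PO2 → S_PO3 → S_MK → S_RMV`). Removal of at most `k` points of a region costs at most a constant factor.
Proof. Let `q F = 1` if `A F`. `P(∃ K ⊆ F, |K| ≤ k, K ⊆ B₀, A (F \ K)) ≤ ∑_{i ≤ k} a_i`,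
`a_i = E (number of the K ⊆ F ∩ B₀ with |K| = i and A (F \ K))`. `i a_i ≤ E ∑_{x ∈ F ∩ B₀} #{K' ⊆ (F \ x) ∩ B₀,
|K'| = i - 1, A ((F \ x) \ K')} = ν(B₀) a_{i-1}` by MK. So `a_i ≤ ν(B₀)^i / i! · P(A)`; take
`C = ∑_{i≤k} ν(B₀)^i`. (For the measurability use functionals
`N_i(F) = ∑_{x ∈ F} 1_{B₀}(x) N_{i-1}(F \ x)`, `N_0 = 1_A`: `N_i F ≥ 1` whenever such a `K` with `|K| = i`
exists, they are measurable by PO2, PO3, and `E N_i = ν(B₀)^i P(A)` by MK.) -/
def S_RMV : Prop := ∀ (d : ℕ) (B₀ : Set (X d)) (k : ℕ),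
  MeasurableSet B₀ → ∀ m : ℝ≥0∞, ∃ C : ℝ≥0∞, (m ≠ ⊤ → C ≠ ⊤) ∧
  ∀ (ν : Measure (X d)) [IsFiniteMeasure ν] [NullSingletonClass ν] (A : Set (Finset (X d))), ν B₀ ≤ m →
  MeasurableSet A →
  poi ν {F | ∃ K : Finset (X d), K ⊆ F ∧ K.card ≤ k ∧ (∀ x ∈ K, x ∈ B₀) ∧ F \ K ∈ A} ≤
    C * poi ν A

/-- MB (120 lines). The intensity measures.
Proof. `sig`: `volume (ball 0 1) ∈ (0, ∞)`, the origin is a null set for `d ≥ 1`, so `‖ ‖x‖⁻¹ x ‖ = 1`
almost surely. Invariance under a linear isometry `O`: the volume restricted to the ball is invariant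
(`LinearIsometryEquiv.measurePreserving`) and `O` commutes with `x ↦ ‖x‖⁻¹ x`. No atoms: the volume
has none for `d ≥ 1`. The last clause: PO1; for each `n` the set of `y` with some `‖y_i.2‖ ≠ 1` is null. -/
def S_MB : Prop := ∀ (d : ℕ), 0 < d →
  IsProbabilityMeasure (sig d) ∧ sig d {v | ‖v‖ ≠ 1} = 0 ∧
  (∀ O : V d ≃ₗᵢ[ℝ] V d, (sig d).map O = sig d) ∧
  ∀ B : Set (V d), MeasurableSet B → volume B ≠ ⊤ →
    IsFiniteMeasure (mB B) ∧ NullSingletonClass (mB B) ∧
    (∀ (O : V d ≃ₗᵢ[ℝ] V d) (a : V d),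
      (mB B).map (fun z : X d => (a + O z.1, O z.2)) = mB ((fun x => a + O x) '' B)) ∧
    poi (mB B) {F | ∃ z ∈ F, ‖z.2‖ ≠ 1} = 0

/-! ## B. Deterministic dynamics -/

/-- CT (150 lines). Facts about the contact time. `g(t) = ‖pos z t - pos y t‖` is continuous, so the
infimum is attained if it is finite; `‖z.1 - y.1‖ ≤ g(t) + t ‖z.2 - y.2‖ ≤ 2ε + 2t`. Measurability:
`{ct < ofReal a} = ⋃_{t ∈ [0,a) }{g(t) ≤ 2ε}`; by continuity and compactness
`{ct ≤ ofReal a} = ⋂_n ⋃_{t ∈ ℚ ∩ [0,a]} {g(t) < 2ε + 1/n}` up to the endpoint (`a` real, include `t = a`). -/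
def S_CT : Prop := ∀ (d : ℕ) (ε : ℝ), 0 < ε →
  Measurable (fun p : X d × X d => ct ε p.1 p.2) ∧
  (∀ z y : X d, ct ε z y = ct ε y z) ∧
  (∀ z y : X d, ct ε z y ≠ ⊤ → ∃ t : ℝ, 0 ≤ t ∧ ct ε z y = ENNReal.ofReal t ∧
    ‖pos z t - pos y t‖ ≤ 2 * ε ∧ ∀ s, 0 ≤ s → s < t → 2 * ε < ‖pos z s - pos y s‖) ∧
  (∀ (z y : X d) (t : ℝ), 0 ≤ t → ‖pos z t - pos y t‖ ≤ 2 * ε → ct ε z y ≤ ENNReal.ofReal t) ∧
  (∀ (z y : X d), ct ε z y = 0 ↔ ‖z.1 - y.1‖ ≤ 2 * ε) ∧
  (∀ (z y : X d) (t : ℝ), 0 ≤ t → ‖z.2‖ = 1 → ‖y.2‖ = 1 → ct ε z y ≤ ENNReal.ofReal t →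
    ‖z.1 - y.1‖ ≤ 2 * t + 2 * ε) ∧
  (∀ (O : V d ≃ₗᵢ[ℝ] V d) (a : V d) (z y : X d),
    ct ε ((a + O z.1, O z.2) : X d) (a + O y.1, O y.2) = ct ε z y)

/-- DYN (150 lines). Existence and uniqueness of the removal times.
Proof. Induction on `S.card`. Let `m` be the least contact time of a pair of distinct elements. If
`m = ⊤` (or no pairs) then `D = ⊤` on `S`. Otherwise let `K` be the set of the `z ∈ S` with
`ct z y = m` for some other `y ∈ S`. Any solution has `D ≥ m` everywhere, so `D = m` on `K`; for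
`z ∉ K`, a `y ∈ K` never satisfies `ct z y ≤ D y = m`, so `D` restricted to `S \ K` is a solution for
`S \ K`. Conversely the solution of `S \ K` (which is `≥ m`) together with `m` on `K` is a solution. -/
def S_DYN : Prop := ∀ (d : ℕ) (ε : ℝ) (S : Finset (X d)),
  IsD ε S (dt ε S) ∧ (∀ z, z ∉ S → dt ε S z = 0) ∧
  ∀ D : X d → ℝ≥0∞, IsD ε S D → ∀ z ∈ S, D z = dt ε S z

/-- DM (150 lines; `t_DM : S_CT → S_DYN → S_DM`). Measurability of the removal times.
Proof. Let `f 0 z = ⊤`, `f (n+1) z = ⨅ y ∈ S, y ≠ z, ct z y ≤ f n y, ct z y`. For `S = {y_1, …, y_N}` each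
`f n` is a measurable function of `(z, y)` (finite infima of measurable functions restricted to
measurable sets; `z` need not be in `S`). Claim: `f n = D` on `S` for all `n ≥ N² + 1`, `D = dt ε S`.
Let `b_1 < b_2 < …` be the distinct values of the contact times; by induction on `n`:
`min (f n z) b_n = min (D z) b_n` for `z ∈ S` — more precisely for every real threshold: for all `z ∈ S`
and every contact value `c ≤ b_n`: `f n z ≤ c' ↔ D z ≤ c'` for the contact values `c' < b_{n+1}`... The clean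
form: agreement on all values `< b_n` implies for a contact value `c ≤ b_n`: `c ≤ f n y ↔ c ≤ D y`
(as `f n y`, `D y` are contact values or `⊤`), hence `f (n+1)` and `D` agree on all values `≤ b_n`, i.e.
`< b_{n+1}`. So after as many steps as there are values they agree. For `z ∉ S` the value is `0`
(S_DYN). -/
def S_DM : Prop := ∀ (d : ℕ) (ε : ℝ), 0 < ε →
  TM (fun (z : X d) F => dt ε F z)

open Classical in
/-- DIN (30 lines; `t_DIN : S_CT → S_DYN → S_DIN`). Equivariance. Proof: uniqueness in S_DYN and S_CT. -/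
def S_DIN : Prop := ∀ (d : ℕ) (ε : ℝ), 0 < ε → ∀ (O : V d ≃ₗᵢ[ℝ] V d) (a : V d)
  (F : Finset (X d)) (z : X d), dt ε (F.image fun y : X d => (a + O y.1, O y.2)) (a + O z.1, O z.2) =
    dt ε F z

/-- U1 (60 lines; `t_U1 : S_CT → S_DYN → S_U1`). Two meteors which exist at time `t` do not touch at time `t`; at most one covers
the origin; a meteor of unit speed covers the origin at boundedly many integer times.
Proof. If they touch at time `t` then `ct z y ≤ t < dt y`, so by IsD `dt z ≤ ct z y ≤ t`, contradiction.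
Both covering the origin gives `‖pos z t - pos y t‖ ≤ 2ε`. -/
def S_U1 : Prop := ∀ (d : ℕ) (ε : ℝ), 0 < ε → ∀ (S : Finset (X d)),
  (∀ z ∈ S, ∀ y ∈ S, z ≠ y → ∀ t, 0 ≤ t → ENNReal.ofReal t < dt ε S z → ENNReal.ofReal t < dt ε S y →
    2 * ε < ‖pos z t - pos y t‖) ∧
  (∀ t, 0 ≤ t → Un ε t S ≤ 1)

/-- DEL (80 lines; `t_DEL : S_CT → S_DYN → S_DEL`). Deleting a meteor which exists at time `t` does not change what the others do up
to time `t`.
Proof. Let `D = dt S`, `D' = dt (del y S)`. Show `min (D x) (t⁺) = min (D' x) (t⁺)` in the form: for every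
`s ≤ t` and `x ≠ y` in `S`: `D x ≤ s ↔ D' x ≤ s`, by strong induction on `s` in the finite set of contact
times: `D x ≤ s` iff there is `w ∈ S`, `w ≠ x`, `ct x w ≤ s`, `ct x w ≤ D w`. Here `w = y` is impossible:
`ct x y ≤ s ≤ t < D y` and, as `D x ≤ ct x y` would then hold with the contact of `x` and `y`, take the
least such contact `c = D x`; both `x`, `y` exist before `c` so `D y ≤ c ≤ t`, contradiction. Use: if
`ct x w = D x ≤ D w` then `D w ≤ ct x w` by symmetry, so `D w = D x`. So `w ≠ y`. And `ct x w ≤ D w ↔ ct x w ≤ D' w`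
for contact times `≤ s` by induction (their negations concern strictly smaller times). -/
def S_DEL : Prop := ∀ (d : ℕ) (ε : ℝ), 0 < ε → ∀ (S : Finset (X d)) (y : X d) (t : ℝ),
  0 ≤ t → y ∈ S → ENNReal.ofReal t < dt ε S y →
  ∀ x ∈ S, x ≠ y → (ENNReal.ofReal t < dt ε S x ↔ ENNReal.ofReal t < dt ε (del y S) x)

/-- GH (80 lines; `t_GH : S_CT → S_DYN → S_GH`). An added meteor exists at time `t` iff it is not met before by a meteor of `S`
which exists then in the system `S`.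
Proof. Let `D = dt S`, `D' = dt (ins z S)`, `τ = inf {ct z y : y ∈ S, ct z y ≤ D y}`. Put
`E z = τ`; compare `D'` and `D` on times `< τ` and at `τ`: as in DEL, for `s < τ` (contact values), `D x ≤ s ↔
D' x ≤ s` for `x ∈ S` and `D' z > s`, by induction on the contact values; then `D' z = τ` because for the
minimising `y`: `ct z y = τ ≤ D y` implies `τ ≤ D' y`. -/
def S_GH : Prop := ∀ (d : ℕ) (ε : ℝ), 0 < ε → ∀ (S : Finset (X d)) (z : X d) (t : ℝ),
  0 ≤ t → z ∉ S →
  (alive ε z t S ↔ ∀ y ∈ S, ¬ (ct ε z y ≤ ENNReal.ofReal t ∧ ct ε z y ≤ dt ε S y))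

/-- LOCD (200 lines; `t_LOCD : S_CT → S_DYN → S_LOCD`). Locality: if there are no contact chains of `k` links from `z` below time `t + 1`
then the fate of `z` up to time `t` depends only on the meteors at distance at most
`2 (t + 1) + 2 ε (k + 1)`.
Proof. Say that `w` is reachable from `z` in `S` if there is a chain `z = w_0, w_1, …, w_m = w` of elements of
`ins z S` with `t ≥ ct w_0 w_1 > ct w_1 w_2 > ⋯ ≥ 0` (last one may be `0`); `R` = set of reachable
elements with `z`. (a) For `x ∈ R` reached with last time `u` (`u = t` inclusive for `x = z`):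
the truth of `D x ≤ s` for `s < u` (`s ≤ t` for `x = z`) is the same in the systems `ins z S` and `R`, by
induction on `s` over the finite set of contact values: `D x ≤ s` iff there is `w` with `ct x w ≤ s` and
`¬ (D w < ct x w)`; such `w` is in `R` and the truth of `D w < ct x w` is the same by induction.
(b) A reachable `w` has a chain with distinct elements: cut out loops (the times stay strictly
decreasing). All links but the last have positive time, so such a chain has at most `k` links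
(otherwise its first `k` links would be counted by `nch ε k z (t+1) S`).
(c) The distance from `z` to the end of a chain with `m` links is at most `2 t + 2 ε m`: follow `w_0`
up to time `s_1`, jump `2ε`, follow `w_1` back to time `s_2`, … , finally back to time `0`; total time
travelled `s_1 + (s_1 - s_2) + ⋯ + s_m = 2 s_1`.
(d) Chains of `S'` with elements in the ball: `S` and `S'` agree there, so they have the same reachable
sets (a chain of `S'` leaving the ball would have a first `k` links inside, all in `S`). -/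
def S_LOCD : Prop := ∀ (d : ℕ) (ε : ℝ), 0 < ε → ∀ (S S' : Finset (X d)) (z : X d) (t : ℝ)
  (k : ℕ), 0 ≤ t → z ∉ S → z ∉ S' → ‖z.2‖ = 1 → (∀ y ∈ S, ‖y.2‖ = 1) → (∀ y ∈ S', ‖y.2‖ = 1) →
  nch ε k z (ENNReal.ofReal (t + 1)) S = 0 →
  (∀ y : X d, ‖y.1 - z.1‖ ≤ 2 * (t + 1) + 2 * ε * (k + 1) → (y ∈ S ↔ y ∈ S')) →
  (alive ε z t S ↔ alive ε z t S')

/-- no ties: distinct pairs have distinct positive contact times -/
def NT {d : ℕ} (ε : ℝ) (S : Finset (X d)) : Prop := ∀ a ∈ S, ∀ b ∈ S, ∀ c ∈ S, ∀ e ∈ S,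
  a ≠ b → c ≠ e → 0 < ct ε a b → ct ε a b ≠ ⊤ → ct ε a b = ct ε c e →
  (a = c ∧ b = e) ∨ (a = e ∧ b = c)

open Classical in
/-- the meteors of `S` which meet the (immaterial) meteor `z` in the time interval `[0, t]` -/
noncomputable def hits {d : ℕ} (ε : ℝ) (z : X d) (t : ℝ) (S : Finset (X d)) : Finset (X d) :=
  S.filter fun y => ct ε z y ≤ ENNReal.ofReal t ∧ ct ε z y ≤ dt ε S y

open Classical in
/-- KIL (250 lines; `t_KIL : S_CT → S_DYN → S_GH → S_KIL`). A bounded number of removals protects `z`.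
Proof. Let `K₀ = {y ∈ S : ‖y.1 - z.1‖ ≤ 4ε}`. Run two systems. System 1 (normal): `S`, `z` immaterial.
System 2 (killer): `S \ K₀`, where `z` is an immortal killer: a meteor which touches `z` is removed,
`z` stays. Events in the order of time (positive contact times of pairs of `ins z S`, all different by
NT; at time `0` all meteors with a neighbour at distance `≤ 2ε` in the respective system are removed).
Let `α`, `β` be the sets of the existing meteors of systems 1 and 2. After time `0`: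
`α △ β ⊆ {y : ‖y.1 - z.1‖ ≤ 6ε} =: M`. Claim: at every time
`#kills ≤ 2 #hits + |M| - |α △ β|`, where hits = contacts of `z` with elements of `α`. Event (pair `{w,w'}`):
if both are in `α`, both leave `α`; the same for `β`; `|α △ β|` does not increase (check the cases
both in `α ∩ β`; both in `α`, one in `β`; both in `α`, none in `β`; and symmetric). Event (`z`,`w`):
`w ∈ α ∩ β`: hit and kill, `|α △ β|` increases by `1`; `w ∈ α \ β`: only a hit; `w ∈ β \ α`: a kill,
`|α △ β|` decreases by `1`. So the number of kills up to time `t` is at most `2 #hits + |M|`. Let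
`K t = K₀ ∪ {killed in [0,t]}`. It is monotone; a killed meteor touches `z` by time `t`, so its distance is
at most `2t + 2ε`. In the system `S \ K t` (no `z`) everything happens as in system 2 up to time `t`
(a killed meteor had no other contact with an existing meteor before), so `z` is not met by time
`t`: `alive ε z t (S \ K t)` by GH. A convenient formal model: the sorted list of all pairs of `ins z S`
with positive finite contact time; states by `List.foldl`; first relate `dt` to the fold (a meteor of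
`S` exists at time `t` iff it is in the state after all the events with time `≤ t`). -/
def S_KIL : Prop := ∀ (d : ℕ) (ε : ℝ), 0 < ε → ∀ (S : Finset (X d)) (z : X d),
  z ∉ S → ‖z.2‖ = 1 → (∀ y ∈ S, ‖y.2‖ = 1) → NT ε (ins z S) →
  ∃ K : ℝ → Finset (X d), Monotone K ∧ ∀ t, 0 ≤ t → K t ⊆ S ∧
    (∀ y ∈ K t, ‖y.1 - z.1‖ ≤ 2 * t + 4 * ε) ∧ alive ε z t (S \ K t) ∧
    (K t).card ≤ 2 * (S.filter fun y => ‖y.1 - z.1‖ ≤ 6 * ε).card + 2 * (hits ε z t S).card

/-! ## C. Geometry and measure -/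

/-- CM (200 lines; `t_CM : S_CT → S_MB → S_CAP → S_CM`). Under the intensity measure the contact time with a given meteor has a bounded
density on `(0, ∞)`; with an additional factor for nearly parallel meteors in dimension `≥ 2`.
Proof. Fix the velocity `w` of `y`, `u = z.2 - w`, `‖u‖ ≤ 2`. `pos z t - pos y t = (z.1 - y.1) + t u`. The `y.1` with
first contact in `(a, b]` satisfy: `‖y.1 - z.1 - t u‖ ≤ 2ε` for some `t ∈ (a, b]` but not for `t = a`. So
`y.1 ∈ closedBall (z.1 + a u) (2ε + (b-a)‖u‖) \ closedBall (z.1 + a u) (2ε)`, of volume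
`c_d ((2ε + h)^d - (2ε)^d)`, `h = (b-a)‖u‖`, `≤ C h` for `h ≤ 1`. For `h > 1` divide `(a,b]` in
`⌈h⌉` equal parts. So `volume {y.1 : ct ∈ (a,b]} ≤ C (b-a) ‖u‖`. Integrate over `w`: first clause with
`‖u‖ ≤ 2` (from intervals to all nonnegative measurable functions: the image under `ct` of the
intensity restricted to `0 < ct < ⊤` is a measure `≤ C₁ volume` on intervals, hence on all Borel sets,
e.g. by outer regularity or `MeasureTheory.Measure` extensionality for the π-system of intervals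
applied to densities; one may also prove the first clause only for `φ` antitone or monotone by
Riemann sums — it is used for powers `φ(s) = s^k` and indicators). Third clause: for
`‖z.2 - w‖ ≤ δ` use `‖u‖ ≤ δ` and S_CAP: `C (b-a) δ · C δ`. -/
def S_CM : Prop := ∀ (d : ℕ) (ε : ℝ), 0 < d → 0 < ε → ∃ C : ℝ, 1 ≤ C ∧
  (∀ z : X d, ‖z.2‖ = 1 → ∀ φ : ℝ≥0∞ → ℝ≥0∞, Measurable φ →
    ∫⁻ y, (if 0 < ct ε z y ∧ ct ε z y ≠ ⊤ then φ (ct ε z y) else 0) ∂((volume : Measure (V d)).prod (sig d)) ≤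
      ENNReal.ofReal C * ∫⁻ s in Set.Ioi (0 : ℝ), φ (ENNReal.ofReal s)) ∧
  (2 ≤ d → ∀ z : X d, ‖z.2‖ = 1 → ∀ δ a b : ℝ, 0 < δ → δ ≤ 2 → 0 ≤ a → a ≤ b →
    ((volume : Measure (V d)).prod (sig d)) {y | ‖y.2 - z.2‖ ≤ δ ∧ ENNReal.ofReal a < ct ε z y ∧
      ct ε z y ≤ ENNReal.ofReal b} ≤ ENNReal.ofReal (C * (b - a) * δ ^ 2))

/-- CAP (100 lines). Spherical caps.
Proof. `sig {w : ‖w - v‖ ≤ δ} = vol {x ∈ ball 0 1 : ‖ ‖x‖⁻¹ x - v‖ ≤ δ} / vol (ball 0 1)`. Take a unit vector
`e ⟂ v` (`d ≥ 2`); for such `x`: `|⟪x, e⟫| = |⟪x - ‖x‖ v, e⟫| ≤ ‖x‖ δ ≤ δ`. After a rotation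
(`LinearIsometryEquiv`, orthonormal basis with `e` as first vector, or the map `x ↦ (⟪x,e⟫, …)`), the volume
of `{x ∈ ball 0 1 : |x_1| ≤ δ}` is at most `2δ 2^{d-1}`. -/
def S_CAP : Prop := ∀ d : ℕ, 2 ≤ d → ∃ C : ℝ, 1 ≤ C ∧ ∀ (v : V d) (δ : ℝ), ‖v‖ = 1 → 0 < δ →
  sig d {w | ‖w - v‖ ≤ δ} ≤ ENNReal.ofReal (C * δ)

/-- SEP (60 lines). Two visitors of the origin at times `n ≤ m` start far from each other.
Proof. `‖n v - m v'‖² = (m-n)² + n m ‖v - v'‖²` for unit vectors; `n m ≥ n²`. -/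
def S_SEP : Prop := ∀ (d : ℕ) (ε n m : ℝ) (z y : X d), 0 < ε → 0 ≤ n → n ≤ m → ‖z.2‖ = 1 →
  ‖y.2‖ = 1 → ‖pos z n‖ ≤ ε → ‖pos y m‖ ≤ ε →
  max (m - n) (n * ‖z.2 - y.2‖) - 2 * ε ≤ ‖z.1 - y.1‖ ∧ n - ε ≤ ‖z.1‖ ∧ ‖z.1‖ ≤ n + ε

/-- EN (100 lines; `t_EN : S_PO1 → S_PO2 → S_PO3 → S_MK → S_MB → S_CT → S_CM → S_EN`). Expected number of chains.
Proof. Induction on `k`, for all `z`, `s`: MK with `h y F = 1{0 < ct z y < s} nch k y (ct z y) (del y F)`
(measurable by CT, PO2, PO3, induction), `del y (ins y F) = F` for `y ∉ F` (a.s.), then CM with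
`φ(u) = 1{u < s} (C u)^k / k!` and `∫_0^s (C u)^k/k! C du = (C s)^{k+1}/(k+1)!`. Use that `mB B ≤ volume.prod sig`
and that almost all `y` have unit velocity (MB). Measurability clause: `TM`. -/
def S_EN : Prop := ∀ (d : ℕ) (ε : ℝ), 0 < d → 0 < ε →
  (∀ k : ℕ, TM (fun (p : X d × ℝ≥0∞) F => nch ε k p.1 p.2 F)) ∧
  ∃ C : ℝ, 1 ≤ C ∧ ∀ B : Set (V d), MeasurableSet B → volume B ≠ ⊤ → ∀ (k : ℕ) (z : X d) (s : ℝ),
    ‖z.2‖ = 1 → 0 ≤ s →
    ∫⁻ F, nch ε k z (ENNReal.ofReal s) F ∂(poi (mB B)) ≤ ENNReal.ofReal ((C * s) ^ k / k.factorial)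

/-- NTP (120 lines; `t_NTP : S_PO1 → S_PO2 → S_PO3 → S_MK → S_MB → S_CT → S_CM → S_NTP`). Almost surely there are no ties.
Proof. By MK (for 3 or 4 points) it is enough that for fixed `a`, `s ∈ (0,∞)` the set of `c` with
`ct a c = s` is null (CM with `φ` the indicator of a point), where `s = ct a b` (common point) or
`s = ct b e` (four points). In terms of sums: `1{tie} ≤ ∑_{a,b,c,e}`; the expected number of the
4-tuples (3-tuples) of points with a tie is `0`. With the added point `z`: the same with `z` as one of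
the points. Measurability of the event: as `TM` functionals (CT, PO3 iterated). -/
def S_NTP : Prop := ∀ (d : ℕ) (ε : ℝ), 0 < d → 0 < ε → ∀ B : Set (V d), MeasurableSet B → volume B ≠ ⊤ →
  (poi (mB B) {F | ¬ NT ε F} = 0) ∧
  ∀ z : X d, ‖z.2‖ = 1 → poi (mB B) {F | ¬ NT ε (ins z F)} = 0

/-! ## D. Sequences, zero-one law, second moment inequality -/

/-- SEQ (300 lines). The deterministic lemma. `g_j = 2^j P_j`, `H_j = HH P k j`.
Proof. `C_g = 2^{k+1} 2^{4(k+1)}`. Good: `P (j-k) ≤ C_g P (j+1)`, `k ≤ j`. Suppose that the sum of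
`u_j = g_j²/(g_j + H_j)` over the good `j` converges. Blocks `β_m = [2^m, 2^{m+1})`, `h_m = ∑_{j∈β_m} g_j²`,
`G_m = max_{β_m} g_j`, `U_m` = sum of `u_j` over the good `j ∈ β_m`, so `∑ U_m < ∞`, `U_m → 0`.
(A) If `i-1` is not good then `g_i ≤ η g_{i-1-k}`, `η = 2^{-4(k+1)}`; if `i-1` is good then
`g_i ≤ 2 g_{i-1}` (`P` antitone). Iterating, `g_i ≤ 2 η^n g_{i-1-n(k+1)}` with the first `n` such that
`i-1-n(k+1)` is good. Summing squares: `h_m ≤ 8 ∑_{good j ∈ β_{m-1} ∪ β_m} g_j² + 2^{-2^m}·const`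
(when `n(k+1) ≥ 2^{m-1}` the factor `η^n ≤ 2^{-2^{m+1}}` beats `g ≤ 2^{2^{m-1}}…`).
(B) For good `j`: `g_j² = u_j (g_j + H_j)`, so `∑_{good ∈ β_m} g_j² ≤ U_m (G_m + h_{m-2} + h_{m-1} + h_m + tiny)`
(for `j ∈ β_m` and `m` large `j/2 - k ≥ 2^{m-2}`).
(C) The hypothesis gives `g_{j+1} ≥ (3/2) g_j - 2 C H_j`; so `g_j ≥ 8 C H_j` implies `g_{j+1} ≥ (5/4) g_j`.
Let `h* = h_{m-2}+h_{m-1}+h_m+h_{m+1}+2^{-2^m}`. If `G_m > 8 C h*` then from the argmax in `β_m` on, up to the
end of `β_{m+1}`, `g` grows by the factor `5/4` at each step, so `h_{m+1} ≥ (5/4)^{2^{m+2}} G_m²`, while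
`h_{m+1} ≤ h* < G_m/(8C)`: hence `G_m ≤ (5/4)^{-2^{m+2}}`. So always `G_m ≤ 8 C h* + (5/4)^{-2^{m+2}}`.
(D) `h` is bounded and tends to `0`: use `G_m ≤ √h_m ≤ 1 + h_m` in (A), (B): `h_m ≤ ε_m (1 + h_{m-3} + ⋯ + h_m) + tiny`
with `ε_m → 0`.
(E) With (C): `h_m ≤ ε_m (h_{m-3} + ⋯ + h_{m+1}) + tiny_m`, `ε_m → 0`. For `s_m = sup_{i≥m} h_i < ∞`:
`s_m ≤ 5 ε_m s_{m-3} + tiny_m`, so `s_m = O(8^{-m})` (as soon as `5 ε_m ≤ 8^{-3}/2`; `tiny_m` is
superexponentially small). Then `∑_{β_m} g_j ≤ √(2^m h_m) = O(2^{-m})` (Cauchy-Schwarz), so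
`∑ g_j < ∞`, a contradiction. -/
def S_SEQ : Prop := ∀ (P : ℕ → ℝ) (k : ℕ) (C : ℝ), Antitone P → (∀ j, 0 ≤ P j) → (∀ j, P j ≤ 1) →
  1 ≤ C → (∀ j, k ≤ j → 3 / 4 * P j - C * (1 / 2) ^ j * HH P k j ≤ P (j + 1)) →
  (¬ Summable fun j => (2 : ℝ) ^ j * P j) →
  ¬ Summable (fun j : ℕ => if k ≤ j ∧ P (j - k) ≤ 2 ^ (5 * (k + 1)) * P (j + 1) then
    ((2 : ℝ) ^ j * P j) ^ 2 / ((2 : ℝ) ^ j * P j + HH P k j) else 0)

/-- ZO (80 lines). A zero-one law.
Proof. Lévy's upward theorem (`MeasureTheory.tendsto_ae_condExp`): `P[1_I | ℱ_n] → 1_I` a.e.; the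
hypothesis gives `P[1_I | ℱ_n] ≥ c` a.e.; so `1_I ≥ c > 0` a.e. -/
def S_ZO : Prop := ∀ (Ω : Type) (m0 : MeasurableSpace Ω) (P : Measure Ω) [IsProbabilityMeasure P]
  (ℱ : Filtration ℕ m0) (I : Set Ω) (c : ℝ), 0 < c → MeasurableSet[⨆ n, ℱ n] I →
  (∀ n, ∀ A : Set Ω, MeasurableSet[ℱ n] A → ENNReal.ofReal c * P A ≤ P (I ∩ A)) → P I = 1

/-- PZ (50 lines). Paley–Zygmund for a nonnegative bounded variable on a part of the space.
Proof. `a ≤ ∫_A W ≤ ∫_A W 1{W < t} + ∫_A W 1{W ≥ t} ≤ t μ(A) + (∫_A W²)^{1/2} μ(A ∩ {W ≥ t})^{1/2}` and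
`t μ(A) ≤ a/2`. -/
def S_PZ : Prop := ∀ (α : Type) [MeasurableSpace α] (μ : Measure α) [IsProbabilityMeasure μ]
  (A : Set α) (W : α → ℝ≥0∞) (a b t : ℝ), MeasurableSet A → Measurable W → 0 < a → 0 ≤ t →
  t ≤ a / 2 → ENNReal.ofReal (a * (μ A).toReal) ≤ ∫⁻ x in A, W x ∂μ →
  ∫⁻ x in A, W x ^ 2 ∂μ ≤ ENNReal.ofReal (b * (μ A).toReal) → 0 < b →
  ENNReal.ofReal (a ^ 2 / (4 * b)) * μ A ≤ μ (A ∩ {x | ENNReal.ofReal t ≤ W x})

/-! ## E. Dimension one -/

open Classical in
/-- D1A (200 lines; `t_D1A : S_CT → S_DYN → S_U1 → S_D1A`). In dimension one every left mover of `(0, L]` which survives time `0` covers the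
origin, or is met by a right mover of `(0, L]`, or is met by a meteor which covers the origin.
Proof. Write `x = z.1 0`, `v = z.2 0 = ±1`. Let `z` be a left mover with `0 < x ≤ L`, `dt z > 0`. If `dt z > x`
it covers the origin at time `x`. Otherwise `s = dt z` is finite and positive: `s = ct z y ≤ dt y` for
some `y`, in fact `dt y = s`, and by NT `y` is the only one and the map `z ↦ y` is injective (`y` determines
`z` in the same way). `y` is a right mover (same velocities never come into contact at a positive time)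
and starts to the left of `z`: `x_y + s + 2ε = x - s`. If `x_y > 0`: a right mover of `(0, L]` with `dt > 0`. If `x_y ≤ 0`
and `x_y + s ≥ -ε`: `y` covers the origin at time `max 0 (-ε - x_y) < s`... (at time exactly `s` it no longer
exists; if `x_y + s = -ε` take the other case: then `z` has centre `ε`; ties `x_y + s = -ε` can be
treated with `z` or by `y` at a time `< s` only if `x_y + s > -ε`). If `x_y + s < -ε`: `x - s < ε`, so `z`
covers the origin at time `max 0 (x - ε) < s`. In the boundary case `x_y + s = -ε`, `x - s = ε`: exclude it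
by the hypothesis `hb`. All the times are `≤ L`. So (left movers) ≤ (right movers) + (meteors
covering the origin), the map into the disjoint union being injective (`z` itself or its partner). -/
def S_D1A : Prop := ∀ (ε : ℝ), 0 < ε → ∀ (S : Finset (X 1)) (L : ℝ), 0 < L →
  (∀ y ∈ S, ‖y.2‖ = 1) → NT ε S →
  (∀ z ∈ S, ∀ y ∈ S, z.1 0 + y.1 0 ≠ 0) →
  (S.filter fun z => 0 < dt ε S z ∧ 0 < z.1 0 ∧ z.1 0 ≤ L ∧ z.2 0 < 0).card ≤
    (S.filter fun z => 0 < dt ε S z ∧ 0 < z.1 0 ∧ z.1 0 ≤ L ∧ 0 < z.2 0).card + Occ ε L S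

open Classical in
/-- D1B (250 lines; `t_D1B : S_PO1 → S_PO2 → S_PO3 → S_SUP → S_IND → S_MB → S_CT → S_DYN → S_DM → S_D1B`). The difference of the numbers of left and right movers is large with a
probability bounded below, whatever happens in `(-R, R)`.
Proof. `0 < dt ε F z` iff no other point is at distance `≤ 2ε` (S_DYN, S_CT). Let `D` = (left) - (right) among
these `z` with `0 < x ≤ L` and `D'` the same with `R + 2ε < x ≤ L`; `D'` depends only on `F ∩ {x > R}`;
`|D - D'| ≤ Z`, the number of points with `0 < x ≤ R + 2ε`. `D'` is independent of `res (ball 0 R) F` (IND).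
Given the positions the velocities are independent fair signs, so `D'` is a sum of `K` fair signs,
`K` = number of isolated points in `(R+2ε, L]`, `E[D'^2 | K] = K`, `E[D'^4 | K] ≤ 3 K²`, symmetric law:
`P(D' ≥ √K/2 | K) ≥ (1/2)(9/16)/3 = 3/32`. `K → ∞` in probability as `L → ∞`: there are `≥ c L` disjoint
intervals of length `1 + 4ε`, each with probability `p₀ > 0` has exactly one point in it, and that
point in its middle part, independently. So for `L` large `P(D' ≥ m') ≥ 1/16`. Choose `m₀` with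
`P(Z > m₀) ≤ P(A)/64`, `m' = m + m₀`: `P(A, D ≥ m) ≥ P(A) P(D' ≥ m') - P(Z > m₀) ≥ P(A)/32`. (If
`P(A) = 0` nothing is to be shown.) Formally the conditional independence of the signs: PO1, for each
`n` the integral over the positions and the signs (`sig 1` gives mass `1/2` to `±1`). -/
def S_D1B : Prop := ∀ (ε : ℝ), 0 < ε → ∀ (R m : ℕ) (A : Set (Finset (X 1))), MeasurableSet A → ∃ L : ℝ, 0 < L ∧
  ∀ Q : ℝ, 2 * L + R + 4 * ε ≤ Q →
  ENNReal.ofReal (1 / 32) * PQ 1 R A ≤ PQ 1 Q {F | res (Metric.ball 0 R) F ∈ A ∧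
    (F.filter fun z => 0 < dt ε F z ∧ 0 < z.1 0 ∧ z.1 0 ≤ L ∧ 0 < z.2 0).card + m ≤
    (F.filter fun z => 0 < dt ε F z ∧ 0 < z.1 0 ∧ z.1 0 ≤ L ∧ z.2 0 < 0).card}

end Run7.h146.Met
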