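import Pool.Agent.Run7.h146.Met.I1

/-!
# Interface 2: the probabilistic core

Same rules as interface 1: piece XXX is the theorem `t_XXX : S_A → S_B → ⋯ → S_XXX` with the listed
hypotheses (any other `S_YYY` stated before may be added), file `Pool/Agent/Run7/<you>/Met/XXX.lean`.
`p(t) = pp d ε t`, `P(A) = PQ d R 𝒜`, `μ` = intensity. All events are measurable by `S_MEAS`.
-/

set_option autoImplicit false

open MeasureTheory Filter Topology ENNReal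

namespace Run7.h146.Met

/-- the event of locality at scale `r` for a meteor `z`; it depends only on the configuration in the
ball of radius `r` about `z.1` -/
def Loc {d : ℕ} (ε κ r : ℝ) (z : X d) (F : Finset (X d)) : Prop :=
  nch ε ⌊r / (8 * ε)⌋₊ z (ENNReal.ofReal (κ * r + 1)) (res (Metric.ball z.1 r) F) = 0

/-- both added meteors exist at time `t`, `t'` respectively -/
def al2 {d : ℕ} (ε : ℝ) (z : X d) (t : ℝ) (y : X d) (t' : ℝ) (F : Finset (X d)) : Prop :=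
  ENNReal.ofReal t < dt ε (ins z (ins y F)) z ∧ ENNReal.ofReal t' < dt ε (ins z (ins y F)) y

open Classical in
/-- the configuration seen from `x` -/
noncomputable def sh {d : ℕ} (x : V d) (F : Finset (X d)) : Finset (X d) :=
  F.image fun y => (y.1 - x, y.2)

/-- the lattice point of a point -/
noncomputable def rd {d : ℕ} (h : ℝ) (x : V d) : V d := WithLp.toLp 2 fun i => h * ⌊x i / h⌋

/-- the constants of locality -/
def LocC (d : ℕ) (ε κ C r₀ : ℝ) : Prop :=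
  0 < κ ∧ κ ≤ 1 / 16 ∧ 1 ≤ C ∧ 1 ≤ r₀ ∧
  (∀ (F : Finset (X d)) (z : X d) (r t : ℝ), (∀ y ∈ F, ‖y.2‖ = 1) → ‖z.2‖ = 1 → z ∉ F → r₀ ≤ r →
    0 ≤ t → t ≤ κ * r → Loc ε κ r z F → (alive ε z t F ↔ alive ε z t (res (Metric.ball z.1 r) F))) ∧
  (∀ B : Set (V d), MeasurableSet B → volume B ≠ ⊤ → ∀ (r : ℝ) (z : X d), r₀ ≤ r → ‖z.2‖ = 1 →
    poi (mB B) {F | ¬ Loc ε κ r z F} ≤ ENNReal.ofReal (C * Real.exp (-r)))

/-- the survival probability is known up to an exponentially small error from the ball -/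
def LimC (d : ℕ) (ε κ C r₀ : ℝ) : Prop :=
  ∀ (r t : ℝ) (z : X d), r₀ ≤ r → 0 ≤ t → t ≤ κ * r → ‖z.2‖ = 1 →
    poi (mB (Metric.ball z.1 r)) {F | alive ε z t F ∨ ¬ Loc ε κ r z F} ≤
      ENNReal.ofReal (pp d ε t + C * Real.exp (-r)) ∧
    ENNReal.ofReal (pp d ε t - C * Real.exp (-r)) ≤
      poi (mB (Metric.ball z.1 r)) {F | alive ε z t F ∧ Loc ε κ r z F}

/-- one-point estimates -/
def OneC (d : ℕ) (ε κ C r₀ : ℝ) : Prop :=
  ∀ (r t R : ℝ) (z : X d) (B : Set (V d)) (A : Set (Finset (X d))), r₀ ≤ r → 0 ≤ t → t ≤ κ * r →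
    ‖z.2‖ = 1 → MeasurableSet B → volume B ≠ ⊤ → MeasurableSet A → Metric.ball z.1 r ⊆ B →
    Metric.ball (0 : V d) R ⊆ B → Disjoint (Metric.ball z.1 r) (Metric.ball (0 : V d) R) →
    poi (mB B) {F | res (Metric.ball 0 R) F ∈ A ∧ alive ε z t F} ≤
      PQ d R A * ENNReal.ofReal (pp d ε t + C * Real.exp (-r)) ∧
    PQ d R A * ENNReal.ofReal (pp d ε t - C * Real.exp (-r)) ≤
      poi (mB B) {F | res (Metric.ball 0 R) F ∈ A ∧ alive ε z t F}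

/-- two-point estimate -/
def TwoC (d : ℕ) (ε κ C r₀ : ℝ) : Prop :=
  ∀ (r t r' t' R : ℝ) (z y : X d) (B : Set (V d)) (A : Set (Finset (X d))), r₀ ≤ r → 0 ≤ t →
    t ≤ κ * r → r₀ ≤ r' → 0 ≤ t' → t' ≤ κ * r' →
    ‖z.2‖ = 1 → ‖y.2‖ = 1 → MeasurableSet B → volume B ≠ ⊤ → MeasurableSet A →
    Metric.ball z.1 r ⊆ B → Metric.ball y.1 r' ⊆ B → Metric.ball (0 : V d) R ⊆ B →
    Disjoint (Metric.ball z.1 r) (Metric.ball (0 : V d) R) →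
    Disjoint (Metric.ball y.1 r') (Metric.ball (0 : V d) R) →
    Disjoint (Metric.ball z.1 r) (Metric.ball y.1 r') →
    poi (mB B) {F | res (Metric.ball 0 R) F ∈ A ∧ al2 ε z t y t' F} ≤
      PQ d R A * ENNReal.ofReal (pp d ε t + C * Real.exp (-r)) *
        ENNReal.ofReal (pp d ε t' + C * Real.exp (-r'))

/-- all the estimates about given meteors (the later pieces use only these) -/
structure Core (d : ℕ) (ε κ C r₀ : ℝ) : Prop where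
  loc : LocC d ε κ C r₀
  lim : LimC d ε κ C r₀
  one : OneC d ε κ C r₀
  two : TwoC d ε κ C r₀
  /-- close meteors: forget the one which exists longer -/
  near : ∀ (t t' R : ℝ) (z y : X d) (B : Set (V d)) (A : Set (Finset (X d))), 0 ≤ t → t ≤ t' →
    z ≠ y → MeasurableSet B → volume B ≠ ⊤ →
    poi (mB B) {F | res (Metric.ball 0 R) F ∈ A ∧ al2 ε z t y t' F} ≤
      poi (mB B) {F | res (Metric.ball 0 R) F ∈ A ∧ alive ε z t F}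
  /-- range and monotonicity of the survival probability -/
  rng : ∀ t, 0 ≤ pp d ε t ∧ pp d ε t ≤ 1
  anti : Antitone (pp d ε)

/-! ## F. Measurability and the Mecke formula for existing meteors -/

open Classical in
/-- MEAS (200 lines; `t_MEAS : S_PO1 → S_PO2 → S_PO3 → S_CT → S_DYN → S_DM → S_MB → S_EN → S_MEAS`).
Measurability of everything. Proof. DM with PO2 (insertions), PO3 (sums). For `Occ`: the set of the
`t ≥ 0` with `‖pos z t‖ ≤ ε` is closed; if it is nonempty its minimum is `τ(z) = ct (ε/2) z (0,0)`; so `z` is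
counted iff `τ(z) ≤ ofReal N` and `τ(z) < dt ε F z`. A filter-cardinality is a sum of indicators. `res B`:
`univ.image y` filtered, PO2 (4). `Vj` is a finite sum. A set is measurable iff its indicator is. -/
def S_MEAS : Prop := ∀ (d : ℕ) (ε : ℝ), 0 < d → 0 < ε →
  (∀ B : Set (V d), MeasurableSet B → Measurable (res B)) ∧
  (∀ x : V d, Measurable (sh x)) ∧
  (∀ z : X d, MeasurableSet {F : Finset (X d) | z ∈ F}) ∧
  TM (fun (q : X d × ℝ) F => if alive ε q.1 q.2 F then 1 else 0) ∧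
  TM (fun (q : (X d × ℝ) × (X d × ℝ)) F => if al2 ε q.1.1 q.1.2 q.2.1 q.2.2 F then 1 else 0) ∧
  (∀ (z : X d) (t : ℝ), MeasurableSet {F | alive ε z t F}) ∧
  (∀ (z y : X d) (t t' : ℝ), MeasurableSet {F | al2 ε z t y t' F}) ∧
  (∀ κ r : ℝ, TM (fun (z : X d) F => if Loc ε κ r z F then 1 else 0)) ∧
  (∀ (z : X d) (κ r : ℝ), MeasurableSet {F | Loc ε κ r z F}) ∧
  (∀ t : ℝ, Measurable (Un (d := d) ε t)) ∧ (∀ j : ℕ, Measurable (Vj (d := d) ε j)) ∧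
  (∀ (N : ℝ) (m : ℕ), MeasurableSet {F : Finset (X d) | m ≤ Occ ε N F}) ∧
  (∀ (z : X d) (t : ℝ) (m : ℕ), MeasurableSet {F : Finset (X d) | m ≤ (hits ε z t F).card}) ∧
  MeasurableSet {F : Finset (X d) | ∀ y ∈ F, ‖y.2‖ = 1} ∧
  (∀ B : Set (X d), MeasurableSet B → Measurable fun F : Finset (X d) => (F.filter fun y => y ∈ B).card) ∧
  (∀ (t : ℝ) (B : Set (V d)) (R : ℝ) (A : Set (Finset (X d))), MeasurableSet B → volume B ≠ ⊤ →
    MeasurableSet A →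
    Measurable (fun z : X d => poi (mB B) {F | res (Metric.ball 0 R) F ∈ A ∧ alive ε z t F})) ∧
  (∀ (t t' : ℝ) (B : Set (V d)) (R : ℝ) (A : Set (Finset (X d))), MeasurableSet B → volume B ≠ ⊤ →
    MeasurableSet A →
    Measurable (fun q : X d × X d => poi (mB B) {F | res (Metric.ball 0 R) F ∈ A ∧
      al2 ε q.1 t q.2 t' F}))

open Classical in
/-- SING (60 lines; `t_SING : S_PO1 → S_PO2 → S_PO3 → S_MK → S_MB → S_DM → S_MEAS → S_SING`).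
Mecke formula for one existing meteor. Proof. MK with
`h z F = 1_A(res F) 1{t < dt ε F z} f z`; for `z ∉ F` and `z.1 ∉ ball 0 R`: `res (ins z F) = res F`. -/
def S_SING : Prop := ∀ (d : ℕ) (ε : ℝ), 0 < d → 0 < ε → ∀ (t R : ℝ) (B : Set (V d))
  (A : Set (Finset (X d))) (f : X d → ℝ≥0∞), MeasurableSet B → volume B ≠ ⊤ → MeasurableSet A →
  Measurable f → (∀ z : X d, z.1 ∈ Metric.ball (0 : V d) R → f z = 0) →
  ∫⁻ F in {F | res (Metric.ball 0 R) F ∈ A}, (∑ z ∈ F, if ENNReal.ofReal t < dt ε F z then f z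
    else 0) ∂(poi (mB B)) =
  ∫⁻ z, f z * poi (mB B) {F | res (Metric.ball 0 R) F ∈ A ∧ alive ε z t F} ∂(mB B)

open Classical in
/-- PAIR (80 lines; `t_PAIR : S_PO1 → S_PO2 → S_PO3 → S_MK → S_MB → S_DM → S_MEAS → S_PAIR`).
Mecke formula for two existing meteors. Proof. MK twice. -/
def S_PAIR : Prop := ∀ (d : ℕ) (ε : ℝ), 0 < d → 0 < ε → ∀ (t t' R : ℝ) (B : Set (V d))
  (A : Set (Finset (X d))) (g : X d × X d → ℝ≥0∞), MeasurableSet B → volume B ≠ ⊤ →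
  MeasurableSet A → Measurable g →
  (∀ z y : X d, z.1 ∈ Metric.ball (0 : V d) R ∨ y.1 ∈ Metric.ball (0 : V d) R → g (z, y) = 0) →
  ∫⁻ F in {F | res (Metric.ball 0 R) F ∈ A}, (∑ z ∈ F, ∑ y ∈ del z F,
    if ENNReal.ofReal t < dt ε F z ∧ ENNReal.ofReal t' < dt ε F y then g (z, y) else 0)
    ∂(poi (mB B)) =
  ∫⁻ z, ∫⁻ y, g (z, y) * poi (mB B) {F | res (Metric.ball 0 R) F ∈ A ∧ al2 ε z t y t' F}
    ∂(mB B) ∂(mB B)

/-- GI (60 lines; `t_GI : S_MB → S_CAP → S_GI`). The meteors which cover the origin at time `t`.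
Proof. Tonelli: for a fixed velocity `w` the set `{x : ‖x + t w‖ ≤ ε}` has the volume of a ball of
radius `ε`; then CAP. -/
def S_GI : Prop := ∀ (d : ℕ) (ε : ℝ), 0 < d → 0 < ε → ∃ C : ℝ, 1 ≤ C ∧ ∀ (B : Set (V d)) (t : ℝ),
  MeasurableSet B → mB B {z | ‖pos z t‖ ≤ ε} ≤ ENNReal.ofReal C ∧
  (2 ≤ d → ∀ (v : V d) (δ : ℝ), ‖v‖ = 1 → 0 < δ →
    mB B {z | ‖pos z t‖ ≤ ε ∧ ‖z.2 - v‖ ≤ δ} ≤ ENNReal.ofReal (C * δ))

/-- OCV (80 lines; `t_OCV : S_OCV`). Each meteor of unit speed covers the origin at at most `2ε + 1`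
integer times (`‖pos z n - pos z m‖ = |n - m|`). Proof. Exchange the sums; a meteor with a nonzero
contribution is counted by `Occ`. -/
def S_OCV : Prop := ∀ (d : ℕ) (ε : ℝ), 0 < ε → ∀ (F : Finset (X d)) (N : ℕ), (∀ y ∈ F, ‖y.2‖ = 1) →
  ∑ n ∈ Finset.range (N + 1), Un ε (n : ℝ) F ≤ ENNReal.ofReal (2 * ε + 1) * (Occ ε N F : ℝ≥0∞)

/-! ## G. Locality and independence -/

/-- LOCP (150 lines; `t_LOCP : S_MB → S_IND → S_LOCD → S_EN → S_LOCP`). Locality constants.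
Proof. Second part first: by S_EN (region `B ∩ ball z.1 r`, by IND) and Markov,
`P(¬Loc) ≤ (C₁ (κ r + 1))^K / K!`, `K = ⌊r/(8ε)⌋`. For `κ r ≥ 1`, `r ≥ 16 ε` and `K! ≥ (K/e)^K` it is at most
`ρ^K`, `ρ = 32 e C₁ κ ε`, `K ≥ r/(16 ε)`; so `≤ e^{-r}` if `ρ ≤ e^{-16ε}`: choose `κ`. First part: LOCD with
`S = res (ball z.1 r) F`, `S' = F`, `k = K`: `2(t+1) + 2ε(K+1) ≤ r/8 + 2 + r/4 + 2ε < r` for `r ≥ r₀`
(`t ≤ r/16`); `nch` is monotone in the time. -/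
def S_LOCP : Prop := ∀ (d : ℕ) (ε : ℝ), 0 < d → 0 < ε → ∃ κ C r₀ : ℝ, LocC d ε κ C r₀

/-- PPM (40 lines; `t_PPM : S_MB → S_PO1 → S_PPM`). The survival probability is in `[0,1]` and
antitone (limsup of antitone functions with values in `[0,1]`). -/
def S_PPM : Prop := ∀ (d : ℕ) (ε : ℝ), 0 < d → 0 < ε →
  (∀ t, 0 ≤ pp d ε t ∧ pp d ε t ≤ 1) ∧ Antitone (pp d ε)

/-- LIM (150 lines; `t_LIM : S_PO1 → S_MK → S_MB → S_IND → S_MAP → S_CT → S_DYN → S_DIN → S_MEAS →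
S_LIM`). Proof. Put `q_r(z) = P(alive ε z t F ∧ Loc ε κ r z F)`, `F` Poisson in `ball z.1 r`. By MAP, DIN
(and the same equivariance of `nch`, induction) `q_r(z)` is the same for all `z` with `‖z.2‖ = 1` (an isometry
moves unit vectors to unit vectors: `reflection_sub`). For `Q ≥ r`, `z = (0,v)`: by the locality of
LocC (`F` has unit speeds and `z ∉ F` almost surely) and IND,
`q_r ≤ P_Q(alive z t F) ≤ P_Q(alive z t (res (ball 0 r) F) ∨ ¬Loc) ≤ q_r + C e^{-r}`. So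
`q_r ≤ p(t) ≤ q_r + C e^{-r}`; the first claim follows from `P(alive ∨ ¬Loc) ≤ q_r + C e^{-r}`. -/
def S_LIM : Prop := ∀ (d : ℕ) (ε κ C r₀ : ℝ), 0 < d → 0 < ε → LocC d ε κ C r₀ → LimC d ε κ C r₀

/-- ONE (80 lines; `t_ONE : S_PO1 → S_MK → S_MB → S_IND → S_MEAS → S_ONE`). Proof. Almost surely
(`F` with unit speeds, `z ∉ F`) `alive z t F` implies `alive z t (res (ball z.1 r) F) ∨ ¬Loc`, and is implied by
`alive z t (res (ball z.1 r) F) ∧ Loc`. These depend on `res (ball z.1 r) F` only (`res` is idempotent),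
independent of `res (ball 0 R) F` by IND. Then LimC. -/
def S_ONE : Prop := ∀ (d : ℕ) (ε κ C r₀ : ℝ), 0 < d → 0 < ε → LocC d ε κ C r₀ → LimC d ε κ C r₀ →
  OneC d ε κ C r₀

/-- TWO (120 lines; `t_TWO : S_PO1 → S_MK → S_MB → S_IND → S_MEAS → S_TWO`). Proof. As `y.1` is not
in `ball z.1 r`, `res (ball z.1 r) (ins y F) = res (ball z.1 r) F`, so by LocC for `ins y F` (and the
same for `y`), almost surely `al2` implies (`alive z t (res (ball z.1 r) F) ∨ ¬Loc ε κ r z F`) and the same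
for `y`. The three events are independent by IND. Then LimC. -/
def S_TWO : Prop := ∀ (d : ℕ) (ε κ C r₀ : ℝ), 0 < d → 0 < ε → LocC d ε κ C r₀ → LimC d ε κ C r₀ →
  TwoC d ε κ C r₀

/-- NEAR (50 lines; `t_NEAR : S_PO1 → S_MK → S_MB → S_DEL → S_NEAR`). Proof. Almost surely `z, y ∉ F`.
DEL for `S = ins z (ins y F)`, `y` (which exists at time `t ≤ t'`): `z` exists at time `t` in `S` iff in
`del y S = ins z F`. -/
def S_NEAR : Prop := ∀ (d : ℕ) (ε : ℝ), 0 < d → 0 < ε →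
  ∀ (t t' R : ℝ) (z y : X d) (B : Set (V d)) (A : Set (Finset (X d))), 0 ≤ t → t ≤ t' →
    z ≠ y → MeasurableSet B → volume B ≠ ⊤ →
    poi (mB B) {F | res (Metric.ball 0 R) F ∈ A ∧ al2 ε z t y t' F} ≤
      poi (mB B) {F | res (Metric.ball 0 R) F ∈ A ∧ alive ε z t F}

/-- CORE (10 lines; `t_CORE : S_LOCP → S_PPM → S_LIM → S_ONE → S_TWO → S_NEAR → S_CORE`). -/
def S_CORE : Prop := ∀ (d : ℕ) (ε : ℝ), 0 < d → 0 < ε → ∃ κ C r₀ : ℝ, Core d ε κ C r₀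

/-! ## H. The removal argument -/

open Classical in
/-- HB (150 lines; `t_HB : S_PO1 → S_PO2 → S_PO3 → S_MK → S_MB → S_CT → S_CM → S_DM → S_MEAS → S_HB`).
If `∑ 2^j p(2^j) < ∞` the number of the meteors which meet the ghost `(0,v)` is tight.
Proof. By MK the expected number of hits up to time `t` is `∫ μ(dy) 1{ct z y ≤ t} P_Q(ct z y ≤ dt (ins y F) y)`.
The `y` with `ct = 0` contribute at most the volume of a ball of radius `2ε`. For `0 < s = ct z y ≤ t`: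
`P_Q ≤ P_Q(alive ε y (s/2) F) ≤ p(s/2) + C e^{-s}` by `Core.one` (`R = 0`, `A = univ`, `r = max r₀ (s/(2κ))`;
`‖y.1‖ ≤ 2s + 2ε`, so `Q ≥ Q₀(t)` suffices). By CM the total is at most
`c + C' ∫_0^∞ (p(s/2) + C e^{-s}) ds ≤ c + C'(C + 2 (1 + ∑ 2^j p(2^j))) =: E`, independent of `t`, `v`, `Q ≥ Q₀(t)`.
The number of points with `‖y.1‖ ≤ 6ε` has a finite expectation as well. Markov. -/
def S_HB : Prop := ∀ (d : ℕ) (ε κ C r₀ : ℝ), 0 < d → 0 < ε → Core d ε κ C r₀ →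
  (Summable fun j : ℕ => (2 : ℝ) ^ j * pp d ε ((2 : ℝ) ^ j)) →
  ∃ M : ℕ, ∀ t : ℝ, 0 ≤ t → ∃ Q₀ : ℝ, ∀ Q : ℝ, Q₀ ≤ Q → ∀ v : V d, ‖v‖ = 1 →
    (1 / 2 : ℝ≥0∞) ≤ PQ d Q {F | 2 * (F.filter fun y => ‖y.1‖ ≤ 6 * ε).card +
      2 * (hits ε ((0 : V d), v) t F).card ≤ M}

/-- REM (150 lines; `t_REM : S_PO1 → S_PO2 → S_PO3 → S_MK → S_RMV → S_MB → S_KIL → S_NTP → S_DM →
S_MEAS → S_HB → S_REM`). The sum of the survival probabilities is infinite (all `d ≥ 1`).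
Proof. Suppose it is finite; then `p(t) → 0`. Take `M` of HB, `L = M + 1`, `v` a unit vector, `z = (0,v)`,
`t_0 = 0`, `a_i = 2 t_i + 4ε + 1`. Choose `t_1 < t_2 < ⋯ < t_L` inductively: with `C_i` the constant of RMV
for `B₀ = ball 0 a_{i-1} ×ˢ univ`, `k = M`, `m = volume (ball 0 a_{i-1})` take `t_i` with
`C_i (p(t_i) + C e^{-t_i/κ}) ≤ 2^{-i-3}`. Let `Q` be large. Let `E_i` = there is `K ⊆ F ∩ B₀` with `|K| ≤ M` and
`alive ε z t_i (F \ K)`; `P_Q(E_i) ≤ 2^{-i-3}` by RMV and `Core.one`, so `∑ P_Q(E_i) ≤ 1/4`. Almost surely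
`z ∉ F`, unit speeds, `NT ε (ins z F)`: let `K` be as in KIL. On the event of HB for `t = t_L`,
`|K t| ≤ M` for `t ≤ t_L` (`K` monotone). This event has probability `≥ 1/2`, so it is compatible with the
failure of all `E_i`; then `K t_i ⊄ ball 0 a_{i-1}` while `K t_{i-1} ⊆ ball 0 a_{i-1}`, so
`|K t_i| > |K t_{i-1}|` for `i = 1, …, L` and `|K t_L| ≥ L > M`, a contradiction. -/
def S_REM : Prop := ∀ (d : ℕ) (ε κ C r₀ : ℝ), 0 < d → 0 < ε → Core d ε κ C r₀ →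
  ¬ Summable fun j : ℕ => (2 : ℝ) ^ j * pp d ε ((2 : ℝ) ^ j)

/-! ## I. The survival probabilities do not drop too fast -/

/-- STA (60 lines; `t_STA : S_PO1 → S_PO2 → S_PO3 → S_MK → S_MB → S_CT → S_DYN → S_DM → S_MEAS →
S_STA`). Proof. If `z` exists at time `T` but not at time `T'` in `ins z F` (`D = dt ε (ins z F)`) then `D z` is
the minimum of the `ct z y` with `ct z y ≤ D y`, so there is `y ∈ F`, `T < ct z y ≤ T'` and `T < D z`, `T < D y`.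
Sum over `y` and MK (`ins z (ins y F) = ins y (ins z F)`). -/
def S_STA : Prop := ∀ (d : ℕ) (ε : ℝ), 0 < d → 0 < ε → ∀ (B : Set (V d)) (z : X d) (T T' : ℝ),
  MeasurableSet B → volume B ≠ ⊤ → 0 ≤ T → T ≤ T' →
  poi (mB B) {F | alive ε z T F} ≤ poi (mB B) {F | alive ε z T' F} +
    ∫⁻ y in {y | ENNReal.ofReal T < ct ε z y ∧ ct ε z y ≤ ENNReal.ofReal T'},
      poi (mB B) {F | al2 ε z T y T F} ∂(mB B)

/-- STAR (200 lines; `t_STAR : S_MB → S_CT → S_CM → S_MEAS → S_STA → S_STAR`). `P j = p(2^j)`.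
Proof. `T = 2^j`, `T' = 2T`, `z = (0,v)`, `B = ball 0 Q`, `Q` large (then `P_Q(alive z T) ≥ p(T) - C e^{-Q}` etc. by
`Core.one` with `R = 0`, `A = univ`; let `Q → ∞` or take `Q = 100 T/κ + r₀`, `e^{-Q} ≤ 4^{-j}`). For the `y` in STA
put `δ = ‖z.2 - y.2‖`. (a) `δ ≤ θ T^{-1/2}`: the measure is at most `C_m T (θ T^{-1/2})² = C_m θ²` (third
clause of CM) and by `near` the probability is at most `P_Q(alive z T) ≤ p(T) + C e^{-..}`; choose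
`θ ≤ 1`, `θ = 2^{-a}`, with `C_m θ² ≤ 1/4`. (b) `2^i/T < δ ≤ 2^{i+1}/T` for an integer
`i ≥ j/2 - a - 1` (natural subtraction; the `i` with `2^{i+1} > θ √T`), `i ≤ j + 1`: the
measure is at most `C_m T 4^{i+1}/T²`. At contact `‖(z.1 - y.1) + s (z.2 - y.2)‖ ≤ 2ε`, `s > T`, so
`‖z.1 - y.1‖ ≥ T δ - 2ε ≥ 2^i - 2ε ≥ 2 · 2^{i-2}` if `2^{i-1} ≥ 2ε`. `two` with `r = r' = 2^{i-2}`, `t = t' = 2^{i-b}`,
`2^{-b} ≤ κ/4` (and `al2` is monotone in the times): probability `≤ (p(2^{i-b}) + C e^{-2^{i-2}})²`. The sum: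
`≤ C 2^{-j} ∑_i 4^i (p(2^{i-b})² + e^{-2^{i-1}}) ≤ C' 2^{-j} HH P k j` with `k ≥ a + b + 1`, as the terms
`i' = i - b ≥ j/2 - k` are in the sum `HH` and `e^{-2^{i-1}} 4^i j ≤ C 2^{-j}` for `i ≥ j/2 - a - 1`. For the
finitely many small `j` the statement is trivial if `C'` is large (`HH ≥ 2^{-j}`, `p ≤ 1`). -/
def S_STAR : Prop := ∀ (d : ℕ) (ε κ C r₀ : ℝ), 2 ≤ d → 0 < ε → Core d ε κ C r₀ →
  ∃ k₀ : ℕ, ∀ k : ℕ, k₀ ≤ k → ∃ C₁ : ℝ, 1 ≤ C₁ ∧ ∀ j : ℕ, k ≤ j →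
    3 / 4 * pp d ε ((2 : ℝ) ^ j) - C₁ * (1 / 2) ^ j * HH (fun i => pp d ε ((2 : ℝ) ^ i)) k j ≤
      pp d ε ((2 : ℝ) ^ (j + 1))

/-! ## J. Second moments -/

open Classical in
/-- SMA (250 lines; `t_SMA : S_MB → S_SEP → S_U1 → S_MEAS → S_SING → S_PAIR → S_GI → S_SMA`). Two times
of the same scale; `q = p(2^{j-k}) + e^{-2^{j-1}}`, `q_i = p(2^{i-k}) + e^{-2^{i-2}}`.
Proof. `k₀` with `2^{-k₀} ≤ κ/4`. `Un n · Un m = ∑_z ∑_y`. The terms `z = y` vanish unless `m - n ≤ 2ε` (unit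
speed) and then give at most `Un n`, whose expectation on `A` is by SING and `Core.one` (`r = 2^{j-1}`,
`t = 2^{j-k} ≤ n`, monotonicity of alive; `‖z.1‖ ≥ n - ε`) and GI at most `C P(A) q`. For `z ≠ y`: PAIR with
`g = 1{‖pos z n‖ ≤ ε, ‖pos y m‖ ≤ ε}` (`‖z.1‖ ≥ n - ε > R`). Put
`s = max (m - n) (n ‖z.2 - y.2‖) < 2^{j+2}`, `‖z.1 - y.1‖ ≥ s - 2ε` (SEP). (a) `s < 2^{j/2}` (natural division):
then `m - n < 2^{j/2}`, `‖y.2 - z.2‖ ≤ 2^{j/2}/2^j`: measure of the pairs at most `C · C 2^{j/2 - j}` by GI,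
probability at most `P(A) C q` by `near` and `one`. (b) `2^i ≤ s < 2^{i+1}`, `j/2 ≤ i ≤ j+1`: measure at most
`C · C 2^{i+1}/2^j`, only if `m - n < 2^{i+1}`; probability at most `P(A) (C q_i)²` by `two` with
`r = r' = 2^{i-2}`, `t = t' = 2^{i-k}`: the balls about `z.1`, `y.1` are disjoint as `2^i - 2ε ≥ 2 · 2^{i-2}`, they
do not meet `ball 0 R` as `2^j - ε ≥ R + 2^{j-1}`, and they are contained in `ball 0 Q`. -/
def S_SMA : Prop := ∀ (d : ℕ) (ε κ C r₀ : ℝ), 2 ≤ d → 0 < ε → Core d ε κ C r₀ →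
  ∃ k₀ : ℕ, ∀ k : ℕ, k₀ ≤ k → ∃ C₁ : ℝ, 1 ≤ C₁ ∧ ∀ R : ℝ, ∃ j₀ : ℕ, ∀ j : ℕ, j₀ ≤ j →
    ∀ (A : Set (Finset (X d))) (Q : ℝ), MeasurableSet A → 4 * (2 : ℝ) ^ j ≤ Q →
    ∀ n m : ℕ, 2 ^ j ≤ n → n ≤ m → m < 2 ^ (j + 1) →
    ∫⁻ F in {F | res (Metric.ball 0 R) F ∈ A}, Un ε (n : ℝ) F * Un ε (m : ℝ) F ∂(PQ d Q) ≤
      PQ d R A * ENNReal.ofReal (C₁ *
        ((if ((m : ℝ) - n ≤ 2 * ε) then (pp d ε ((2 : ℝ) ^ (j - k)) + Real.exp (-(2 : ℝ) ^ (j - 1)))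
            else 0) +
         (if m - n < 2 ^ (j / 2) then (2 : ℝ) ^ (j / 2) / (2 : ℝ) ^ j *
            (pp d ε ((2 : ℝ) ^ (j - k)) + Real.exp (-(2 : ℝ) ^ (j - 1))) else 0) +
         ∑ i ∈ Finset.Icc (j / 2) (j + 1), if m - n < 2 ^ (i + 1) then (2 : ℝ) ^ i / (2 : ℝ) ^ j *
            (pp d ε ((2 : ℝ) ^ (i - k)) + Real.exp (-(2 : ℝ) ^ (i - 2))) ^ 2 else 0))

/-- SM (120 lines; `t_SM : S_MEAS → S_SMA → S_SM`). Second moment of `V_j`.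
Proof. `V_j² ≤ 2 ∑_{n ≤ m} Un n · Un m`. Sum SMA over `2^j ≤ n ≤ m < 2^{j+1}`: `2^j (2ε+1) q`,
`2^j 2^{j/2} 2^{j/2-j} q ≤ 2^j q`, and `∑_i 2^j 2^{i+1} 2^{i-j} q_i² ≤ 4 ∑_i 4^i (p(2^{i-k})² + e^{-2^{i-1}})`; here
`∑_i 4^i p(2^{i-k})² ≤ 4^k HH` (index `i - k`, take `k ≥ 1`, `j₀ ≥ 2k`) and all the exponential terms are at most
`C 2^{-j} ≤ C HH` (`4^{j+1} (j+2) e^{-2^{j/2-1}} ≤ C 2^{-j}`). -/
def S_SM : Prop := ∀ (d : ℕ) (ε κ C r₀ : ℝ), 2 ≤ d → 0 < ε → Core d ε κ C r₀ →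
  ∃ k₀ : ℕ, ∀ k : ℕ, k₀ ≤ k → ∃ C₁ : ℝ, 1 ≤ C₁ ∧ ∀ R : ℝ, ∃ j₀ : ℕ, ∀ j : ℕ, j₀ ≤ j →
    ∀ (A : Set (Finset (X d))) (Q : ℝ), MeasurableSet A → 4 * (2 : ℝ) ^ j ≤ Q →
    ∫⁻ F in {F | res (Metric.ball 0 R) F ∈ A}, Vj ε j F ^ 2 ∂(PQ d Q) ≤
      PQ d R A * ENNReal.ofReal (C₁ * ((2 : ℝ) ^ j * pp d ε ((2 : ℝ) ^ (j - k)) +
        HH (fun i => pp d ε ((2 : ℝ) ^ i)) k j))

/-- CR (200 lines; `t_CR : S_MB → S_MEAS → S_PAIR → S_GI → S_CR`). Mixed moments of distant scales.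
Proof. For `n ∈ [2^j, 2^{j+1})`, `m ∈ [2^{j'}, 2^{j'+1})`: `‖z.1‖ ≤ 2^{j+1} + ε`, `‖y.1‖ ≥ 2^{j'} - ε ≥ 8·2^j - ε`, so
`z ≠ y`. PAIR and `two` with `r = 2^{j-1}`, `t = 2^{j-k}`, `r' = 2^{j'-1}`, `t' = 2^{j'-k}`, `2^{-k} ≤ κ/2`: the balls are
disjoint as `‖y.1‖ - r' ≥ 2^{j'-1} - ε ≥ 4·2^j - ε > 2^{j+1} + ε + 2^{j-1} ≥ ‖z.1‖ + r`, disjoint from
`ball 0 R` as `‖z.1‖ ≥ 2^j - ε`. The measure of the pairs is at most `C²` by GI; there are `2^j 2^{j'}`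
pairs `(n,m)`; `2^j C e^{-2^{j-1}} ≤ C' 2^{-j}`. -/
def S_CR : Prop := ∀ (d : ℕ) (ε κ C r₀ : ℝ), 0 < d → 0 < ε → Core d ε κ C r₀ →
  ∃ k₀ : ℕ, ∀ k : ℕ, k₀ ≤ k → ∃ C₁ : ℝ, 1 ≤ C₁ ∧ ∀ R : ℝ, ∃ j₀ : ℕ, ∀ j j' : ℕ, j₀ ≤ j →
    j + 3 ≤ j' → ∀ (A : Set (Finset (X d))) (Q : ℝ), MeasurableSet A → 4 * (2 : ℝ) ^ j' ≤ Q →
    ∫⁻ F in {F | res (Metric.ball 0 R) F ∈ A}, Vj ε j F * Vj ε j' F ∂(PQ d Q) ≤
      PQ d R A * ENNReal.ofReal (C₁ * ((2 : ℝ) ^ j * pp d ε ((2 : ℝ) ^ (j - k)) + (1 / 2) ^ j) *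
        ((2 : ℝ) ^ j' * pp d ε ((2 : ℝ) ^ (j' - k)) + (1 / 2) ^ j'))

/-! ## K. The first moment on `A`: a meteor crosses many translates of `A` -/

open Classical in
/-- LCB (200 lines; `t_LCB : S_PO1 → S_MB → S_IND → S_MAP → S_MEAS → S_LCB`). Along a line the
event `A` occurs about as often as expected.
Proof. `x_t = rd h (pos z t)`, `‖x_t - pos z t‖ ≤ h √d`. The indicator `χ_t` of
`res (ball 0 R) (sh x_t F) ∈ A` depends on `res (ball x_t R) F` only; its expectation is `a = PQ d R A` (MAP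
with the translation by `-x_t`), and `χ_t`, `χ_s` are independent if `|t - s| ≥ 2R + 2h√d` (IND, disjoint
balls). So the variance of `∑_{t ∈ [N,2N)} χ_t` is at most `N (4R + 4h√d + 3)`; Chebyshev:
`P(∑ < a N / 2) ≤ 4 (4R + 4h√d + 3)/(a² N)`. -/
def S_LCB : Prop := ∀ (d : ℕ) (h R : ℝ) (A : Set (Finset (X d))) (η : ℝ), 0 < d → 0 < h → 0 ≤ R →
  MeasurableSet A → 0 < PQ d R A → 0 < η → ∃ N₀ : ℕ, ∀ N : ℕ, N₀ ≤ N → ∀ (z : X d) (B : Set (V d)),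
  ‖z.2‖ = 1 → MeasurableSet B → volume B ≠ ⊤ →
  (∀ t ∈ Finset.Ico N (2 * N), Metric.ball (rd h (pos z (t : ℝ))) R ⊆ B) →
  poi (mB B) {F | ((Finset.Ico N (2 * N)).filter fun t : ℕ =>
    res (Metric.ball 0 R) (sh (rd h (pos z (t : ℝ))) F) ∈ A).card < (PQ d R A).toReal * N / 2} ≤
    ENNReal.ofReal η

/-- the probability that `z` exists at time `t` (locally) and that `A` occurs at `x` -/
noncomputable def GG {d : ℕ} (ε κ r R t : ℝ) (A : Set (Finset (X d))) (z : X d) (x : V d) : ℝ≥0∞ :=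
  poi (mB (Metric.ball z.1 r)) {F | alive ε z t F ∧ Loc ε κ r z F ∧ res (Metric.ball 0 R) (sh x F) ∈ A}

/-- LCM (200 lines; `t_LCM : S_PO1 → S_MK → S_MB → S_IND → S_MAP → S_CT → S_DYN → S_DIN → S_MEAS →
S_SING → S_LCM`). Translation invariance.
Proof. (1) By SING (`f z = 1{‖pos z t‖ ≤ ε}`; `‖z.1‖ ≥ t - ε > R`) the right side is
`∫ 1{‖pos z t‖ ≤ ε} P_Q(res (ball 0 R) F ∈ A ∧ alive z t F) μ(dz)`. As `ball z.1 r ⊆ ball 0 Q` and `ball 0 R ⊆ ball z.1 r`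
(`‖z.1‖ ≤ t + ε`, `t ≤ κ r ≤ r/16`), locality (LocC; unit speeds and `z ∉ F` almost surely) and IND give
`P_Q(…) ≥ GG ε κ r R t A z 0`. (2) So it is at least `∫ 1{rd h (pos z t) = 0} GG … z 0 d(vol × sig)`
(`rd h x = 0` implies `‖x‖ ≤ h √d ≤ ε`). (3) `GG … (z.1 + a, z.2) (x + a) = GG … z x` (MAP and DIN, translations).
The lattice `Λ` = range of `rd h` is countable; for fixed velocity:
`∫_{rd z.1 = 0} GG z (rd (pos z t)) dz.1 = ∑_{x ∈ Λ} ∫ 1{rd z.1 = 0, rd (pos z t) = x} GG z x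
= ∑_x ∫ 1{rd z.1 = -x, rd (pos z t) = 0} GG z 0 = ∫ 1{rd (pos z t) = 0} GG z 0`, by the substitution `z.1 → z.1 + x`
(`rd h (y + x) = rd h y + x` for `x ∈ Λ`). -/
def S_LCM : Prop := ∀ (d : ℕ) (ε κ C r₀ : ℝ), 0 < d → 0 < ε → LocC d ε κ C r₀ →
  ∀ (h R : ℝ) (A : Set (Finset (X d))) (t r Q : ℝ), 0 < h → h * Real.sqrt d ≤ ε → 0 ≤ R →
  MeasurableSet A → R + ε < t → r₀ ≤ r → t ≤ κ * r → R + t + ε ≤ r → r + t + ε ≤ Q →
  ∫⁻ z in {z : X d | rd h z.1 = 0}, GG ε κ r R t A z (rd h (pos z t)) ∂((volume : Measure (V d)).prod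
    (sig d)) ≤
  ∫⁻ F in {F | res (Metric.ball 0 R) F ∈ A}, Un ε t F ∂(PQ d Q)

/-- LC (200 lines; `t_LC : S_PO1 → S_MK → S_MB → S_IND → S_MEAS → S_LCB → S_LCM → S_LC`).
Proof. We may assume `P(A) > 0`, `R ≥ 0`. `h = ε/√d`, `c = h^d/2`, `2^{-k} ≤ κ/2`, `T = 2^j`, `r = 4T/κ`, `t ∈ [T, 2T)`. Sum LCM over `t`:
`E_Q[V_j 1_A] ≥ ∫_{rd z.1 = 0} ∑_t GG_t(z, x_t(z))`, `x_t = rd h (pos z t)`. For fixed `z` (unit velocity), under
`poi (mB (ball z.1 r))`: `∑_t GG_t ≥ E[1{alive z (2T), Loc} N(F)]`, `N` = number of the `t` with `A` at `x_t`,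
`≥ (P(A) T/2) (P(alive z 2T ∧ Loc) - P(alive z 2^{j-k} ∧ Loc ∧ bad))`, `bad = {N < P(A) T/2}`. The first
probability is at least `p(2T) - C e^{-r}` (LimC). The second: `alive z 2^{j-k}` implies (a.s.)
`alive z 2^{j-k} (res (ball z.1 2^{j-1}) F) ∨ ¬Loc ε κ 2^{j-1} z F`, an event of the ball of radius `2^{j-1}`, whereas `bad`
depends on the points at distance `≥ T - h√d - R > 2^{j-1}` (for `j ≥ j₀`; the balls `ball x_t R`, use IND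
with `B₁ = ball z.1 2^{j-1}`, `B₂` its complement in the big ball): at most
`(p(2^{j-k}) + C e^{-2^{j-1}}) η` by LimC and LCB. The volume of `{rd x = 0}` is `h^d`. For `j ≥ j₀`:
`C e^{-r} + C e^{-2^{j-1}} ≤ 4^{-j}`. -/
def S_LC : Prop := ∀ (d : ℕ) (ε κ C r₀ : ℝ), 0 < d → 0 < ε → Core d ε κ C r₀ →
  ∃ (c : ℝ) (k₀ : ℕ), 0 < c ∧ ∀ k : ℕ, k₀ ≤ k → ∀ (R : ℝ) (A : Set (Finset (X d))) (η : ℝ), 0 < η →
    MeasurableSet A → ∃ j₀ : ℕ, ∀ j : ℕ, j₀ ≤ j → ∃ Q₀ : ℝ, ∀ Q : ℝ, Q₀ ≤ Q →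
    PQ d R A * ENNReal.ofReal (c * (2 : ℝ) ^ j * (pp d ε ((2 : ℝ) ^ (j + 1)) -
      η * pp d ε ((2 : ℝ) ^ (j - k)) - (1 / 4) ^ j)) ≤
    ∫⁻ F in {F | res (Metric.ball 0 R) F ∈ A}, Vj ε j F ∂(PQ d Q)

/-! ## L. Conclusion for finite systems -/

/-- whatever the configuration in the ball of radius `R` is, with probability at least `c` many
meteors occupy the origin -/
def MainC (d : ℕ) (ε : ℝ) : Prop := ∃ c : ℝ, 0 < c ∧ ∀ (R m : ℕ) (A : Set (Finset (X d))),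
  MeasurableSet A → ∃ N Q₀ : ℝ, ∀ Q : ℝ, Q₀ ≤ Q →
    PQ d R A * ENNReal.ofReal c ≤ PQ d Q {F | res (Metric.ball 0 R) F ∈ A ∧ m ≤ Occ ε N F}

/-- MAIN2 (250 lines; `t_MAIN2 : S_PO1 → S_MB → S_SEQ → S_PZ → S_MEAS → S_OCV → S_CORE → S_REM → S_STAR →
S_SM → S_CR → S_LC → S_MAIN2`). Dimension at least two.
Proof. `P j = p(2^j)`, `k` = maximum of the `k₀`'s, `g_j = 2^j P_j`, `H_j = HH P k j`, `G = 2^{5(k+1)}`. Good `j`:
`k ≤ j`, `P_{j-k} ≤ G P_{j+1}`. By SEQ (with STAR, REM, Core) `∑_{good} u_j = ∞`, `u_j = g_j²/(g_j + H_j)`; one residue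
class modulo 3 has an infinite sum. Let `R, A, m` be given, `P(A) > 0`; `J` a finite set of good `j ≥ j₀(A)` of this
class, `a_j = g_j/(g_j + H_j) ≤ 1`, `W = ∑_{j∈J} a_j V_j`, `S = ∑_{j∈J} u_j`. LC with `η = 1/(4G)`:
`E[W 1_A] ≥ c P(A) ∑ a_j 2^j (P_{j+1} (3/4) - 4^{-j}) ≥ c P(A) ((3/(4G)) S - 2)` as
`2^j P_{j+1} ≥ g_j/G` and `a_j g_j = u_j`. SM, CR: `E[W² 1_A] ≤ C P(A) (∑ a_j² (G g_j + H_j) + (∑ a_j (G g_j + 2^{-j}))²)
≤ C P(A) (G S + (G S + 2)²)` as `a_j² (g_j + H_j) = u_j`. For `S` large PZ gives `P(A, W ≥ c' S) ≥ c'' P(A)` with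
`c', c''` independent of `A`, `m`, `J`. As `W ≤ ∑_{n < 2^{max J + 1}} Un n ≤ (2ε+1) Occ ε N F` (OCV, unit speeds),
`N = 2^{max J + 1}`, we get `Occ ≥ m` if `c' S ≥ (2ε+1) m`. `Q₀` = maximum of those of the `j ∈ J`. -/
def S_MAIN2 : Prop := ∀ (d : ℕ) (ε : ℝ), 2 ≤ d → 0 < ε → MainC d ε

/-- MAIN1 (100 lines; `t_MAIN1 : S_PO1 → S_PO2 → S_PO3 → S_MK → S_MB → S_NTP → S_MEAS → S_D1A → S_D1B →
S_MAIN1`). Dimension one. Proof. D1B and D1A (almost surely unit speeds, NT and no two points with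
opposite positions, and no point at `0`: by MK the expected numbers of such points and pairs are `0`), `N = L`,
`c = 1/32`. -/
def S_MAIN1 : Prop := ∀ ε : ℝ, 0 < ε → MainC 1 ε

/-! ## M. The infinite system -/

/-- FSF (60 lines; `t_FSF : S_PO1 → S_MB → S_MEAS → S_FSF`). The finite configurations of the infinite
system: `fs (Pi ω) Q` for natural `Q`. Proof. `fs (Pi ω) Q = (fin ω Q).toFinset` (proof irrelevance,
`Set.Finite.toFinset`). Unit speeds for all `Q` almost surely (countable intersection). -/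
def S_FSF : Prop := ∀ (Ω : Type) [MeasurableSpace Ω] (P : Measure Ω) [IsProbabilityMeasure P] (d : ℕ)
  (Pi : Ω → Set (X d)), 0 < d → IsPoissonMeteors P d Pi →
  (∀ Q : ℕ, Measurable fun ω => fs (Pi ω) (Q : ℝ)) ∧
  (∀ Q : ℕ, P.map (fun ω => fs (Pi ω) (Q : ℝ)) = PQ d Q) ∧
  (∀ ω (R : ℝ) (z : X d), z ∈ fs (Pi ω) R ↔ z ∈ Pi ω ∧ ‖z.1‖ < R) ∧
  (∀ ω (R Q : ℝ), R ≤ Q → fs (Pi ω) R = res (Metric.ball 0 R) (fs (Pi ω) Q)) ∧
  ∀ᵐ ω ∂P, ∀ z ∈ Pi ω, ‖z.2‖ = 1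

/-- EXI (150 lines; `t_EXI : S_PO1 → S_PO2 → S_PO3 → S_MK → S_MB → S_MEAS → S_FSF → S_EXI`). The fate of
every meteor up to time `T` is the same for all large `R`.
Proof. For natural `a` and `Q > a` let `Bad(a,Q)` = there is `z ∈ fs (Pi ω) Q` with `‖z.1‖ < a` and
`¬ Loc ε κ (Q - a) z (del z (fs (Pi ω) Q))`. By MK its probability is at most
`volume (ball 0 a) · C e^{-(Q-a)}` for `Q ≥ a + r₀` (LocC). Borel–Cantelli (`measure_limsup_atTop_eq_zero`): almost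
surely for all `a` there are `Q₁(a)` without `Bad(a,Q)` for `Q ≥ Q₁(a)`. Let `z ∈ Pi ω`, `‖z.1‖ < a`, and a natural
`Q ≥ Q₁(a)` with `Q ≥ a + r₀`, `T ≤ κ (Q - a)`; `R₀ = Q`. For `R ≥ Q`: `ball z.1 (Q-a) ⊆ ball 0 Q`, so
`res (ball z.1 (Q-a)) (del z (fs S R))` is the same for all `R ≥ Q`, `Loc` holds for it, and LocC: for `t ≤ T`
`z` exists at time `t` in the `R`-dynamics iff `alive ε z t (res (ball z.1 (Q-a)) (del z (fs S Q)))`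
(`ins z (del z F) = F`). -/
def S_EXI : Prop := ∀ (Ω : Type) [MeasurableSpace Ω] (P : Measure Ω) [IsProbabilityMeasure P] (d : ℕ)
  (Pi : Ω → Set (X d)) (ε κ C r₀ : ℝ), 0 < d → 0 < ε → LocC d ε κ C r₀ → IsPoissonMeteors P d Pi →
  ∀ᵐ ω ∂P, ∀ z ∈ Pi ω, ∀ T : ℝ, ∃ R₀ : ℝ, ∀ R : ℝ, R₀ ≤ R → ∀ t : ℝ, 0 ≤ t → t ≤ T →
    (ExistsAt ε (Pi ω) R z t ↔ ExistsAt ε (Pi ω) R₀ z t)

/-- FIN (200 lines; `t_FIN : S_PO1 → S_MB → S_ZO → S_MEAS → S_FSF → S_FIN`). Passage to the infinite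
system.
Proof. `F_Q = fs (Pi ω) Q`, `ℱ_Q = σ(F_Q)` (a filtration as `F_R = res (ball 0 R) F_Q`, MEAS). `I_m` = there is a
natural `N` with `m ≤ Occ ε N F_Q` for all large natural `Q`; `I = ⋂ I_m`, measurable for `⨆ ℱ_Q` (MEAS). Let
`B = {F_R ∈ A} ∈ ℱ_R`. MainC gives `N` (may be taken natural, `Occ` is monotone in `N`) with
`P(B ∩ {m ≤ Occ ε N F_Q}) ≥ c P(B)` for all large `Q`. Almost surely `Occ ε N F_Q` is constant for large `Q`: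
unit speeds, so the counted meteors have `‖z.1‖ ≤ N + ε`: finitely many candidates, and for each of
them `{t ∈ [0,N] : z exists at time t}` does not depend on `Q` for large `Q` (hypothesis `he`). So by
`measure limsup ≥ limsup measure` (finite measure) `P(B ∩ I_m) ≥ c P(B)`, and `P(B ∩ I) ≥ c P(B)` (`I_m` decreasing).
ZO: `P(I) = 1`. On `I` and the almost sure events, for every `m` there are `N` and a large `Q` at which
everything has stabilised for the candidates: the `m` meteors counted by `Occ ε N F_Q` occupy the origin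
in the infinite process. So the set is infinite (it has at least `m` elements for every `m`). -/
def S_FIN : Prop := ∀ (Ω : Type) [MeasurableSpace Ω] (P : Measure Ω) [IsProbabilityMeasure P] (d : ℕ)
  (Pi : Ω → Set (X d)) (ε : ℝ), 0 < d → 0 < ε → MainC d ε → IsPoissonMeteors P d Pi →
  (∀ᵐ ω ∂P, ∀ z ∈ Pi ω, ∀ T : ℝ, ∃ R₀ : ℝ, ∀ R : ℝ, R₀ ≤ R → ∀ t : ℝ, 0 ≤ t → t ≤ T →
    (ExistsAt ε (Pi ω) R z t ↔ ExistsAt ε (Pi ω) R₀ z t)) →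
  ∀ᵐ ω ∂P, {z | z ∈ Pi ω ∧ Occupies ε (Pi ω) z}.Infinite

end Run7.h146.Met
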